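import Mathlib

/-!
Analysis for the covariance of the numbers of free neighbours of the two end points: an abstract
positive sequence `c` with `log (c (n+2) / μ^(n+2)) - log (c n / μ^n) = O (φ n)` and a sequence `V`
with `V n = μ² - (c (n+1) / c n)² + O (φ n)`, where `φ n = n^(-1/3) exp(K (log log n)²)`.
-/

set_option autoImplicit false

namespace H131.EU

open Filter Topology

/-- `n^(-1/3) exp(K (log log n)²)` -/
noncomputable def phi (K : ℝ) (n : ℕ) : ℝ :=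
  (n : ℝ) ^ (-(1 / 3 : ℝ)) * Real.exp (K * Real.log (Real.log n) ^ 2)

theorem phi_nonneg (K : ℝ) (n : ℕ) : 0 ≤ phi K n := by unfold phi; positivity

theorem phi_le (K : ℝ) {ε : ℝ} (hε : 0 < ε) :
    ∀ᶠ n : ℕ in atTop, phi K n ≤ (n : ℝ) ^ (-(1 / 3 : ℝ) + ε) := by
  have h1 : (fun x : ℝ => Real.log (Real.log x) ^ 2) =o[atTop] (fun x => Real.log x) := by
    have := (Real.isLittleO_pow_log_id_atTop (n := 2)).comp_tendsto Real.tendsto_log_atTop
    simpa [Function.comp_def] using this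
  have h2 : ∀ᶠ x : ℝ in atTop, ‖Real.log (Real.log x) ^ 2‖ ≤ (ε / (|K| + 1)) * ‖Real.log x‖ :=
    h1.bound (by positivity)
  have h3 := (tendsto_natCast_atTop_atTop (R := ℝ)).eventually h2
  filter_upwards [h3, eventually_ge_atTop 3] with n hn hn3
  have hn0 : (3 : ℝ) ≤ n := by exact_mod_cast hn3
  have hl : 0 ≤ Real.log (n : ℝ) := Real.log_nonneg (by linarith)
  unfold phi
  rw [Real.rpow_add (by linarith)]
  apply mul_le_mul_of_nonneg_left _ (by positivity)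
  rw [Real.rpow_def_of_pos (by linarith) ε]
  apply Real.exp_le_exp.2
  rw [Real.norm_of_nonneg (sq_nonneg _), Real.norm_of_nonneg hl] at hn
  have hK : K ≤ |K| + 1 := by linarith [le_abs_self K]
  calc K * Real.log (Real.log n) ^ 2 ≤ (|K| + 1) * Real.log (Real.log n) ^ 2 :=
        mul_le_mul_of_nonneg_right hK (sq_nonneg _)
    _ ≤ (|K| + 1) * (ε / (|K| + 1) * Real.log n) := mul_le_mul_of_nonneg_left hn (by positivity)
    _ = Real.log n * ε := by field_simp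

theorem rpow_neg_tendsto {e : ℝ} (he : e < 0) : Tendsto (fun n : ℕ => (n : ℝ) ^ e) atTop (𝓝 0) := by
  have h := (tendsto_rpow_neg_atTop (y := -e) (by linarith)).comp
    (tendsto_natCast_atTop_atTop (R := ℝ))
  simpa [Function.comp_def] using h

theorem phi_tendsto (K : ℝ) : Tendsto (phi K) atTop (𝓝 0) := by
  have h := rpow_neg_tendsto (e := -(1 / 3 : ℝ) + 1 / 6) (by norm_num)
  exact tendsto_of_tendsto_of_tendsto_of_le_of_le' tendsto_const_nhds h
    (Eventually.of_forall (phi_nonneg K)) (phi_le K (by norm_num))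

/-- `S` meets the interval `[n, n + n^(1/3-ε)]` for every large `n`, for some `ε > 0`. -/
def Recurs (S : Set ℕ) : Prop :=
  ∃ ε : ℝ, 0 < ε ∧ ∀ᶠ n : ℕ in atTop, ∃ s ∈ S, n ≤ s ∧ (s : ℝ) ≤ n + (n : ℝ) ^ (1 / 3 - ε)

theorem Recurs_univ : Recurs Set.univ :=
  ⟨1, one_pos, Eventually.of_forall fun n =>
    ⟨n, trivial, le_rfl, by have : 0 ≤ (n : ℝ) ^ (1 / 3 - 1 : ℝ) := by positivity
                            linarith⟩⟩

section slow

variable {a : ℕ → ℝ} {C K : ℝ} (hC : 0 ≤ C) (h : ∀ n, 3 ≤ n → |a n + a (n + 1)| ≤ C * phi K n)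

include hC h

theorem slow {ε : ℝ} (hε : 0 < ε) (hε3 : ε ≤ 1 / 3) : ∃ N : ℕ, ∀ n, N ≤ n → ∀ m : ℕ,
    |a n| ≤ |a (n + m)| + m * (C * (n : ℝ) ^ (-(1 / 3 : ℝ) + ε / 2)) := by
  obtain ⟨N, hN⟩ := eventually_atTop.1 (phi_le K (show 0 < ε / 2 by linarith))
  refine ⟨max N 3, fun n hn m => ?_⟩
  have hn3 : 3 ≤ n := le_trans (le_max_right _ _) hn
  have hnN : N ≤ n := le_trans (le_max_left _ _) hn
  have hn0 : (0 : ℝ) < n := by exact_mod_cast (by omega : 0 < n)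
  induction m with
  | zero => simp
  | succ m ih =>
    have h1 := h (n + m) (by omega)
    have h2 := hN (n + m) (by omega)
    have h3 : ((n + m : ℕ) : ℝ) ^ (-(1 / 3 : ℝ) + ε / 2) ≤ (n : ℝ) ^ (-(1 / 3 : ℝ) + ε / 2) := by
      apply Real.rpow_le_rpow_of_nonpos hn0
      · push_cast; linarith [(Nat.cast_nonneg m : (0 : ℝ) ≤ m)]
      · linarith
    have h4 : |a (n + m)| ≤ |a (n + (m + 1))| + |a (n + m) + a (n + m + 1)| := by
      have e : a (n + m) = (a (n + m) + a (n + m + 1)) - a (n + (m + 1)) := by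
        rw [← add_assoc]; ring
      calc |a (n + m)| = |(a (n + m) + a (n + m + 1)) - a (n + (m + 1))| := by rw [← e]
        _ ≤ |a (n + m) + a (n + m + 1)| + |a (n + (m + 1))| := abs_sub _ _
        _ = _ := add_comm _ _
    have h5 : C * phi K (n + m) ≤ C * (n : ℝ) ^ (-(1 / 3 : ℝ) + ε / 2) :=
      mul_le_mul_of_nonneg_left (h2.trans h3) hC
    push_cast
    linarith

theorem to_zero {S : Set ℕ} (hS : Recurs S)
    (hs : ∀ δ : ℝ, 0 < δ → ∀ᶠ n : ℕ in atTop, n ∈ S → |a n| ≤ δ) : Tendsto a atTop (𝓝 0) := by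
  obtain ⟨ε, hε, hSn⟩ := hS
  obtain ⟨ε0, hε0⟩ : ∃ ε0, ε0 = min ε (1 / 3) := ⟨_, rfl⟩
  have h0 : 0 < ε0 := by rw [hε0]; positivity
  have h03 : ε0 ≤ 1 / 3 := by rw [hε0]; exact min_le_right _ _
  have h0e : ε0 ≤ ε := by rw [hε0]; exact min_le_left _ _
  obtain ⟨N, hN⟩ := slow hC h h0 h03
  rw [Metric.tendsto_atTop]
  intro δ hδ
  obtain ⟨N1, hN1⟩ := eventually_atTop.1 (hs (δ / 3) (by positivity))
  obtain ⟨N2, hN2⟩ := eventually_atTop.1 hSn
  have h1 := (rpow_neg_tendsto (e := -(ε0 / 2)) (by linarith)).const_mul C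
  rw [mul_zero] at h1
  obtain ⟨N3, hN3⟩ := eventually_atTop.1 (h1.eventually (gt_mem_nhds (show 0 < δ / 3 by positivity)))
  refine ⟨max (max N N1) (max N2 (max N3 1)), fun n hn => ?_⟩
  simp only [max_le_iff, ge_iff_le] at hn
  obtain ⟨⟨hnN, hnN1⟩, hnN2, hnN3, hn1⟩ := hn
  obtain ⟨s, hsS, hns, hsn⟩ := hN2 n hnN2
  obtain ⟨m, rfl⟩ := Nat.exists_eq_add_of_le hns
  have h2 := hN n hnN m
  have h3 := hN1 (n + m) (by omega) hsS
  have h4 := hN3 n hnN3
  have hn1' : (1 : ℝ) ≤ n := by exact_mod_cast hn1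
  have hm : (m : ℝ) ≤ (n : ℝ) ^ (1 / 3 - ε0) := by
    have h5 : (m : ℝ) ≤ (n : ℝ) ^ (1 / 3 - ε) := by push_cast at hsn; linarith
    exact h5.trans (Real.rpow_le_rpow_of_exponent_le hn1' (by linarith))
  have h6 : m * (C * (n : ℝ) ^ (-(1 / 3 : ℝ) + ε0 / 2)) ≤ C * (n : ℝ) ^ (-(ε0 / 2)) := by
    calc m * (C * (n : ℝ) ^ (-(1 / 3 : ℝ) + ε0 / 2))
        ≤ (n : ℝ) ^ (1 / 3 - ε0) * (C * (n : ℝ) ^ (-(1 / 3 : ℝ) + ε0 / 2)) :=
          mul_le_mul_of_nonneg_right hm (by positivity)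
      _ = C * ((n : ℝ) ^ (1 / 3 - ε0) * (n : ℝ) ^ (-(1 / 3 : ℝ) + ε0 / 2)) := by ring
      _ = C * (n : ℝ) ^ (-(ε0 / 2)) := by
          rw [← Real.rpow_add (by linarith)]
          congr 2
          ring
  rw [Real.dist_eq, sub_zero]
  linarith

end slow

/-- the hypotheses -/
structure Hyp (c V : ℕ → ℝ) (μ C K M : ℝ) : Prop where
  mu_pos : 0 < μ
  C_nonneg : 0 ≤ C
  pos : ∀ n, 0 < c n
  rat : ∀ n, 3 ≤ n → |Real.log (c (n + 2) / μ ^ (n + 2)) - Real.log (c n / μ ^ n)| ≤ C * phi K n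
  cov : ∀ n, 3 ≤ n → |V n - (μ ^ 2 - (c (n + 1) / c n) ^ 2)| ≤ C * phi K n
  le : ∀ n, c (n + 1) ≤ M * c n

namespace Hyp

variable {c V : ℕ → ℝ} {μ C K M : ℝ} (H : Hyp c V μ C K M)

include H

/-- the logarithm of `c (n+1) / (μ c n)` -/
theorem add_log (n : ℕ) : Real.log (c (n + 1) / c n / μ) + Real.log (c (n + 1 + 1) / c (n + 1) / μ)
    = Real.log (c (n + 2) / μ ^ (n + 2)) - Real.log (c n / μ ^ n) := by
  have h0 := H.pos n
  have h1 := H.pos (n + 1)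
  have h2 := H.pos (n + 2)
  have hm := H.mu_pos
  rw [← Real.log_mul (by positivity) (by positivity), ← Real.log_div (by positivity) (by positivity)]
  congr 1
  field_simp
  ring

theorem slow_a : ∀ n, 3 ≤ n → |Real.log (c (n + 1) / c n / μ) +
    Real.log (c (n + 1 + 1) / c (n + 1) / μ)| ≤ C * phi K n := by
  intro n hn
  rw [H.add_log]
  exact H.rat n hn

theorem r_eq (n : ℕ) : c (n + 1) / c n = μ * Real.exp (Real.log (c (n + 1) / c n / μ)) := by
  have h0 := H.pos n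
  have h1 := H.pos (n + 1)
  have hm := H.mu_pos
  rw [Real.exp_log (by positivity)]
  field_simp

theorem r_tendsto (h : Tendsto (fun n => Real.log (c (n + 1) / c n / μ)) atTop (𝓝 0)) :
    Tendsto (fun n => c (n + 1) / c n) atTop (𝓝 μ) := by
  have h1 := ((Real.continuous_exp.tendsto 0).comp h).const_mul μ
  rw [Real.exp_zero, mul_one] at h1
  refine h1.congr fun n => ?_
  rw [Function.comp_apply, ← H.r_eq]

theorem D_tendsto : Tendsto (fun n => V n - (μ ^ 2 - (c (n + 1) / c n) ^ 2)) atTop (𝓝 0) := by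
  have h := (phi_tendsto K).const_mul C
  rw [mul_zero] at h
  refine squeeze_zero_norm' ?_ h
  filter_upwards [eventually_ge_atTop 3] with n hn
  rw [Real.norm_eq_abs]
  exact H.cov n hn

theorem s_tendsto : Tendsto (fun n => Real.log (c (n + 1) / c n / μ) +
    Real.log (c (n + 1 + 1) / c (n + 1) / μ)) atTop (𝓝 0) := by
  have h := (phi_tendsto K).const_mul C
  rw [mul_zero] at h
  refine squeeze_zero_norm' ?_ h
  filter_upwards [eventually_ge_atTop 3] with n hn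
  rw [Real.norm_eq_abs]
  exact H.slow_a n hn

/-- `r_n r_(n+1) → μ²` -/
theorem rr_tendsto : Tendsto (fun n => c (n + 1) / c n * (c (n + 1 + 1) / c (n + 1))) atTop
    (𝓝 (μ ^ 2)) := by
  have h1 := ((Real.continuous_exp.tendsto 0).comp H.s_tendsto).const_mul (μ ^ 2)
  rw [Real.exp_zero, mul_one] at h1
  refine h1.congr fun n => ?_
  rw [Function.comp_apply, Real.exp_add]
  have e1 := H.r_eq n
  have e2 := H.r_eq (n + 1)
  rw [show μ ^ 2 * (Real.exp (Real.log (c (n + 1) / c n / μ)) *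
    Real.exp (Real.log (c (n + 1 + 1) / c (n + 1) / μ))) =
    (μ * Real.exp (Real.log (c (n + 1) / c n / μ))) *
    (μ * Real.exp (Real.log (c (n + 1 + 1) / c (n + 1) / μ))) by ring, ← e1, ← e2]

theorem V_tendsto (h : Tendsto (fun n => c (n + 1) / c n) atTop (𝓝 μ)) :
    Tendsto V atTop (𝓝 0) := by
  have h1 := H.D_tendsto.add ((tendsto_const_nhds (x := μ ^ 2)).sub (h.pow 2))
  simp only [sub_self, add_zero] at h1
  refine h1.congr fun n => ?_
  ring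

/-- upper bound of `log (r_n / μ)` from a lower bound of `V n` -/
theorem up {n : ℕ} {δ : ℝ} (h1 : -δ ≤ V n) (h2 : |V n - (μ ^ 2 - (c (n + 1) / c n) ^ 2)| ≤ δ) :
    Real.log (c (n + 1) / c n / μ) ≤ δ / μ ^ 2 := by
  have hm := H.mu_pos
  have e := H.r_eq n
  obtain ⟨t, ht⟩ : ∃ t, t = Real.log (c (n + 1) / c n / μ) := ⟨_, rfl⟩
  rw [← ht] at e ⊢
  rw [e] at h2
  have h3 : (μ * Real.exp t) ^ 2 = μ ^ 2 * Real.exp (2 * t) := by
    rw [mul_pow, ← Real.exp_nat_mul]; norm_num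
  rw [h3] at h2
  have h4 := (abs_le.1 h2).2
  have h5 := Real.add_one_le_exp (2 * t)
  rw [le_div_iff₀ (by positivity)]
  nlinarith [sq_nonneg μ, mul_le_mul_of_nonneg_left h5 (sq_nonneg μ)]

/-- lower bound of `log (r_n / μ)` from an upper bound of `V n` -/
theorem low {n : ℕ} {δ ρ : ℝ} (hρ : 0 < ρ) (h0 : ρ ≤ Real.exp (2 * Real.log (c (n + 1) / c n / μ)))
    (h1 : V n ≤ δ)
    (h2 : |V n - (μ ^ 2 - (c (n + 1) / c n) ^ 2)| ≤ δ) :
    -(δ / (μ ^ 2 * ρ)) ≤ Real.log (c (n + 1) / c n / μ) := by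
  have hm := H.mu_pos
  have e := H.r_eq n
  obtain ⟨t, ht⟩ : ∃ t, t = Real.log (c (n + 1) / c n / μ) := ⟨_, rfl⟩
  rw [← ht] at e h0 ⊢
  rw [e] at h2
  have h3 : (μ * Real.exp t) ^ 2 = μ ^ 2 * Real.exp (2 * t) := by
    rw [mul_pow, ← Real.exp_nat_mul]; norm_num
  rw [h3] at h2
  have h4 := (abs_le.1 h2).1
  have hδ : 0 ≤ δ := (abs_nonneg _).trans h2
  rcases le_or_gt 0 t with h | h
  · have : 0 ≤ δ / (μ ^ 2 * ρ) := by positivity
    linarith
  have h5 := Real.add_one_le_exp (-(2 * t))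
  have h6 : Real.exp (2 * t) * Real.exp (-(2 * t)) = 1 := by rw [← Real.exp_add]; simp
  have h7 : 0 < Real.exp (2 * t) := Real.exp_pos _
  -- e^{2t} - 1 ≤ 2 t e^{2t}
  have h8 : Real.exp (2 * t) - 1 ≤ 2 * t * Real.exp (2 * t) := by nlinarith
  -- 2 t e^{2t} ≤ 2 t ρ
  have h9 : 2 * t * Real.exp (2 * t) ≤ 2 * t * ρ := by nlinarith
  have h10 : -(2 * δ) ≤ μ ^ 2 * (Real.exp (2 * t) - 1) := by linarith
  have h11 : μ ^ 2 * (Real.exp (2 * t) - 1) ≤ μ ^ 2 * (2 * t * ρ) :=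
    mul_le_mul_of_nonneg_left (h8.trans h9) (sq_nonneg μ)
  rw [← neg_div, div_le_iff₀ (by positivity)]
  nlinarith

/-- `e^(2 log (r_n / μ))` is bounded below -/
theorem rho : ∃ ρ : ℝ, 0 < ρ ∧ ∀ᶠ n in atTop,
    ρ ≤ Real.exp (2 * Real.log (c (n + 1) / c n / μ)) := by
  have hm := H.mu_pos
  have hM : ∀ n, c (n + 1) / c n / μ ≤ M / μ := fun n => by
    apply div_le_div_of_nonneg_right _ hm.le
    rw [div_le_iff₀ (H.pos n)]
    exact H.le n
  refine ⟨Real.exp (2 * (-1 - Real.log (M / μ))), Real.exp_pos _, ?_⟩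
  have h := H.s_tendsto.eventually (lt_mem_nhds (show (-1 : ℝ) < 0 by norm_num))
  filter_upwards [h] with n hn
  apply Real.exp_le_exp.2
  have h1 : Real.log (c (n + 1 + 1) / c (n + 1) / μ) ≤ Real.log (M / μ) := by
    have := H.pos (n + 1)
    have := H.pos (n + 1 + 1)
    exact Real.log_le_log (by positivity) (hM (n + 1))
  linarith

theorem of_lower {S : Set ℕ} (hS : Recurs S)
    (hs : ∀ δ : ℝ, 0 < δ → ∀ᶠ n : ℕ in atTop, n ∈ S → -δ ≤ V n ∧ -δ ≤ V (n + 1)) :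
    Tendsto (fun n => c (n + 1) / c n) atTop (𝓝 μ) := by
  have hm := H.mu_pos
  apply H.r_tendsto
  apply to_zero H.C_nonneg H.slow_a hS
  intro δ hδ
  obtain ⟨δ', hδ'⟩ : ∃ δ', δ' = δ / 2 * min (μ ^ 2) 1 := ⟨_, rfl⟩
  have hmin : 0 < min (μ ^ 2) 1 := by positivity
  have hδ'0 : 0 < δ' := by rw [hδ']; positivity
  have hD := H.D_tendsto.eventually (Metric.closedBall_mem_nhds 0 hδ'0)
  have hD1 := (tendsto_add_atTop_nat 1).eventually hD
  have hs' := H.s_tendsto.eventually (Metric.closedBall_mem_nhds 0 (show 0 < δ / 2 by positivity))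
  filter_upwards [hs δ' hδ'0, hD, hD1, hs'] with n h1 h2 h3 h4 hn
  rw [Real.dist_eq, sub_zero] at h2 h3 h4
  obtain ⟨h5, h6⟩ := h1 hn
  have h7 := H.up h5 h2
  have h8 := H.up h6 h3
  have h9 : δ' / μ ^ 2 ≤ δ / 2 := by
    rw [div_le_iff₀ (by positivity), hδ']
    exact mul_le_mul_of_nonneg_left (min_le_left _ _) (by positivity)
  have h10 := (abs_le.1 h4).1
  rw [abs_le]
  constructor <;> linarith

theorem of_upper {S : Set ℕ} (hS : Recurs S)
    (hs : ∀ δ : ℝ, 0 < δ → ∀ᶠ n : ℕ in atTop, n ∈ S → V n ≤ δ ∧ V (n + 1) ≤ δ) :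
    Tendsto (fun n => c (n + 1) / c n) atTop (𝓝 μ) := by
  have hm := H.mu_pos
  apply H.r_tendsto
  apply to_zero H.C_nonneg H.slow_a hS
  intro δ hδ
  obtain ⟨ρ, hρ, hρn⟩ := H.rho
  obtain ⟨δ', hδ'⟩ : ∃ δ', δ' = δ / 2 * (μ ^ 2 * ρ) := ⟨_, rfl⟩
  have hδ'0 : 0 < δ' := by rw [hδ']; positivity
  have hD := H.D_tendsto.eventually (Metric.closedBall_mem_nhds 0 hδ'0)
  have hD1 := (tendsto_add_atTop_nat 1).eventually hD
  have hρn1 := (tendsto_add_atTop_nat 1).eventually hρn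
  have hs' := H.s_tendsto.eventually (Metric.closedBall_mem_nhds 0 (show 0 < δ / 2 by positivity))
  filter_upwards [hs δ' hδ'0, hD, hD1, hs', hρn, hρn1] with n h1 h2 h3 h4 r1 r2 hn
  rw [Real.dist_eq, sub_zero] at h2 h3 h4
  obtain ⟨h5, h6⟩ := h1 hn
  have h7 := H.low hρ r1 h5 h2
  have h8 := H.low hρ r2 h6 h3
  have h9 : δ' / (μ ^ 2 * ρ) = δ / 2 := by
    rw [hδ']; field_simp
  rw [h9] at h7 h8
  have h10 := (abs_le.1 h4).2
  rw [abs_le]
  constructor <;> linarith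

theorem tfae : [Tendsto (fun n => c (n + 1) / c n) atTop (𝓝 μ), Tendsto V atTop (𝓝 0),
    ∃ S, Recurs S ∧ ∀ δ : ℝ, 0 < δ → ∀ᶠ n : ℕ in atTop, n ∈ S → -δ ≤ V n ∧ -δ ≤ V (n + 1),
    ∃ S, Recurs S ∧ ∀ δ : ℝ, 0 < δ → ∀ᶠ n : ℕ in atTop, n ∈ S → V n ≤ δ ∧ V (n + 1) ≤ δ].TFAE := by
  tfae_have 1 → 2 := H.V_tendsto
  tfae_have 2 → 3 := by
    intro h
    refine ⟨Set.univ, Recurs_univ, fun δ hδ => ?_⟩
    have h1 := h.eventually (lt_mem_nhds (show -δ < 0 by linarith))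
    have h2 := (tendsto_add_atTop_nat 1).eventually h1
    filter_upwards [h1, h2] with n a b _ using ⟨a.le, b.le⟩
  tfae_have 2 → 4 := by
    intro h
    refine ⟨Set.univ, Recurs_univ, fun δ hδ => ?_⟩
    have h1 := h.eventually (gt_mem_nhds hδ)
    have h2 := (tendsto_add_atTop_nat 1).eventually h1
    filter_upwards [h1, h2] with n a b _ using ⟨a.le, b.le⟩
  tfae_have 3 → 1 := fun ⟨_, hS, hs⟩ => H.of_lower hS hs
  tfae_have 4 → 1 := fun ⟨_, hS, hs⟩ => H.of_upper hS hs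
  tfae_finish

/-- consecutive values of `V` have asymptotically opposite signs -/
theorem opposite (δ : ℝ) (hδ : 0 < δ) : ∀ᶠ n in atTop, V n * V (n + 1) ≤ δ := by
  have hm := H.mu_pos
  have hM0 : 0 ≤ M := by
    have h1 := H.le 0
    have h2 := H.pos 0
    have h3 := H.pos (0 + 1)
    by_contra hneg
    push Not at hneg
    nlinarith
  obtain ⟨B, hB⟩ : ∃ B, B = μ ^ 2 + M ^ 2 := ⟨_, rfl⟩
  have hB0 : 0 < B := by rw [hB]; positivity
  have hr : ∀ n, |μ ^ 2 - (c (n + 1) / c n) ^ 2| ≤ B := by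
    intro n
    have h0 : 0 ≤ c (n + 1) / c n := (div_pos (H.pos _) (H.pos _)).le
    have h1 : c (n + 1) / c n ≤ M := by
      rw [div_le_iff₀ (H.pos n)]
      exact H.le n
    have h2 : (c (n + 1) / c n) ^ 2 ≤ M ^ 2 := pow_le_pow_left₀ h0 h1 2
    rw [abs_le, hB]
    constructor <;> nlinarith [sq_nonneg (c (n + 1) / c n), sq_nonneg μ, sq_nonneg M]
  obtain ⟨η, hη⟩ : ∃ η, η = min 1 (δ / (2 * (2 * B + 1))) := ⟨_, rfl⟩
  have hη0 : 0 < η := by rw [hη]; positivity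
  have hη1 : η ≤ 1 := by rw [hη]; exact min_le_left _ _
  have hη2 : η * (2 * B + 1) ≤ δ / 2 := by
    have : η ≤ δ / (2 * (2 * B + 1)) := by rw [hη]; exact min_le_right _ _
    rw [le_div_iff₀ (by positivity)] at this
    linarith
  have hD := H.D_tendsto.eventually (Metric.closedBall_mem_nhds 0 hη0)
  have hD1 := (tendsto_add_atTop_nat 1).eventually hD
  have hP : Tendsto (fun n => (μ ^ 2 - c (n + 1) / c n * (c (n + 1 + 1) / c (n + 1))) ^ 2) atTop
      (𝓝 0) := by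
    have := ((tendsto_const_nhds (x := μ ^ 2)).sub H.rr_tendsto).pow 2
    simpa using this
  filter_upwards [hD, hD1, hP.eventually (gt_mem_nhds (show 0 < δ / 2 by positivity))]
    with n h1 h2 h3
  rw [Real.dist_eq, sub_zero] at h1 h2
  have b1 := hr n
  have b2 := hr (n + 1)
  obtain ⟨x, hx⟩ : ∃ x, x = c (n + 1) / c n := ⟨_, rfl⟩
  obtain ⟨y, hy⟩ : ∃ y, y = c (n + 1 + 1) / c (n + 1) := ⟨_, rfl⟩
  rw [← hx] at h1 h3 b1
  rw [← hy] at h2 h3 b2
  obtain ⟨D, hDD⟩ : ∃ D, D = V n - (μ ^ 2 - x ^ 2) := ⟨_, rfl⟩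
  obtain ⟨D', hDD'⟩ : ∃ D', D' = V (n + 1) - (μ ^ 2 - y ^ 2) := ⟨_, rfl⟩
  rw [← hDD] at h1
  rw [← hDD'] at h2
  have e1 : V n = μ ^ 2 - x ^ 2 + D := by rw [hDD]; ring
  have e2 : V (n + 1) = μ ^ 2 - y ^ 2 + D' := by rw [hDD']; ring
  have h4 : (μ ^ 2 - x ^ 2) * (μ ^ 2 - y ^ 2) ≤ (μ ^ 2 - x * y) ^ 2 := by
    nlinarith [mul_nonneg (sq_nonneg μ) (sq_nonneg (x - y))]
  have h5 : D * (μ ^ 2 - y ^ 2) ≤ η * B := by
    calc D * (μ ^ 2 - y ^ 2) ≤ |D * (μ ^ 2 - y ^ 2)| := le_abs_self _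
      _ = |D| * |μ ^ 2 - y ^ 2| := abs_mul _ _
      _ ≤ η * B := mul_le_mul h1 b2 (abs_nonneg _) hη0.le
  have h6 : D' * (μ ^ 2 - x ^ 2) ≤ η * B := by
    calc D' * (μ ^ 2 - x ^ 2) ≤ |D' * (μ ^ 2 - x ^ 2)| := le_abs_self _
      _ = |D'| * |μ ^ 2 - x ^ 2| := abs_mul _ _
      _ ≤ η * B := mul_le_mul h2 b1 (abs_nonneg _) hη0.le
  have h7 : D * D' ≤ η := by
    calc D * D' ≤ |D * D'| := le_abs_self _
      _ = |D| * |D'| := abs_mul _ _
      _ ≤ η * 1 := mul_le_mul h1 (h2.trans hη1) (abs_nonneg _) hη0.le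
      _ = η := mul_one _
  rw [e1, e2]
  have e3 : (μ ^ 2 - x ^ 2 + D) * (μ ^ 2 - y ^ 2 + D') = (μ ^ 2 - x ^ 2) * (μ ^ 2 - y ^ 2) +
    D * (μ ^ 2 - y ^ 2) + D' * (μ ^ 2 - x ^ 2) + D * D' := by ring
  rw [e3]
  linarith

/-- the asymptotic form along all lengths from that along even lengths -/
theorem asymp (A γ : ℝ) (hA : 0 < A) :
    Tendsto (fun n : ℕ => c n / (A * μ ^ n * (n : ℝ) ^ (γ - 1))) atTop (𝓝 1) ↔
      Tendsto (fun n : ℕ => c (2 * n) / (A * μ ^ (2 * n) * ((2 * n : ℕ) : ℝ) ^ (γ - 1))) atTop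
        (𝓝 1) ∧ Tendsto V atTop (𝓝 0) := by
  have hm := H.mu_pos
  obtain ⟨w, hw⟩ : ∃ w : ℕ → ℝ, w = fun n : ℕ => A * μ ^ n * (n : ℝ) ^ (γ - 1) := ⟨_, rfl⟩
  have hwp : ∀ n : ℕ, 1 ≤ n → 0 < w n := by
    intro n hn
    have hn0 : (0 : ℝ) < n := by exact_mod_cast hn
    rw [hw]
    positivity
  have hww : Tendsto (fun n : ℕ => w (n + 1) / w n) atTop (𝓝 μ) := by
    have h1 : Tendsto (fun n : ℕ => ((n : ℝ) + 1) / n) atTop (𝓝 1) := by
      have h2 : Tendsto (fun n : ℕ => 1 + 1 / (n : ℝ)) atTop (𝓝 (1 + 0)) :=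
        tendsto_const_nhds.add tendsto_one_div_atTop_nhds_zero_nat
      rw [add_zero] at h2
      refine h2.congr' ?_
      filter_upwards [eventually_ge_atTop 1] with n hn
      have hn0 : (0 : ℝ) < n := by exact_mod_cast hn
      field_simp
    have h3 : Tendsto (fun n : ℕ => (((n : ℝ) + 1) / n) ^ (γ - 1)) atTop (𝓝 (1 ^ (γ - 1))) :=
      h1.rpow_const (Or.inl one_ne_zero)
    rw [Real.one_rpow] at h3
    have h4 := h3.const_mul μ
    rw [mul_one] at h4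
    refine h4.congr' ?_
    filter_upwards [eventually_ge_atTop 1] with n hn
    have hn0 : (0 : ℝ) < n := by exact_mod_cast hn
    rw [hw]
    dsimp only
    rw [Real.div_rpow (by positivity) (by positivity)]
    have h5 : 0 < (n : ℝ) ^ (γ - 1) := by positivity
    push_cast
    field_simp
    ring
  have hq : ∀ n, c n / (A * μ ^ n * (n : ℝ) ^ (γ - 1)) = c n / w n := fun n => by rw [hw]
  have hq2 : ∀ n, c (2 * n) / (A * μ ^ (2 * n) * ((2 * n : ℕ) : ℝ) ^ (γ - 1)) =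
      c (2 * n) / w (2 * n) := fun n => by rw [hw]
  simp only [hq]
  constructor
  · intro h
    refine ⟨h.comp (tendsto_id.const_mul_atTop' (by norm_num : 0 < 2)), ?_⟩
    apply H.V_tendsto
    have h1 : Tendsto (fun n => c (n + 1) / w (n + 1)) atTop (𝓝 1) :=
      h.comp (tendsto_add_atTop_nat 1)
    have h2 := (h1.div h one_ne_zero).mul hww
    rw [div_one, one_mul] at h2
    refine h2.congr' ?_
    filter_upwards [eventually_ge_atTop 1] with n hn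
    have a1 := hwp n hn
    have a2 := hwp (n + 1) (by omega)
    have a3 := H.pos n
    simp only [Pi.div_apply]
    field_simp
  · rintro ⟨h, hV⟩
    have hr : Tendsto (fun n => c (n + 1) / c n) atTop (𝓝 μ) := H.tfae.out 1 0 |>.1 hV
    have h2n : Tendsto (fun n : ℕ => 2 * n) atTop atTop :=
      tendsto_id.const_mul_atTop' (by norm_num : 0 < 2)
    have hodd : Tendsto (fun n => c (2 * n + 1) / w (2 * n + 1)) atTop (𝓝 1) := by
      have h3 := (h.mul (hr.comp h2n)).div (hww.comp h2n) hm.ne'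
      rw [one_mul, div_self hm.ne'] at h3
      refine h3.congr' ?_
      filter_upwards [eventually_ge_atTop 1] with n hn
      have a1 := hwp (2 * n) (by omega)
      have a2 := hwp (2 * n + 1) (by omega)
      have a3 := H.pos (2 * n)
      simp only [Pi.div_apply, Function.comp_apply]
      field_simp
    rw [Metric.tendsto_atTop] at h hodd ⊢
    intro e he
    obtain ⟨N1, h1⟩ := h e he
    obtain ⟨N2, h2⟩ := hodd e he
    refine ⟨2 * N1 + 2 * N2 + 2, fun n hn => ?_⟩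
    rcases Nat.even_or_odd' n with ⟨k, rfl | rfl⟩
    · exact h1 k (by omega)
    · exact h2 k (by omega)

end Hyp

end H131.EU
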