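import Mathlib

/-!
Self-avoiding walks on `ℤ³`: definitions, and the extension of a path by one site at either end.
-/

set_option autoImplicit false

namespace H131.EU

open Finset

/-- adjacency in `ℤ³` -/
def Adj (x y : Fin 3 → ℤ) : Prop := ∑ j : Fin 3, |y j - x j| = 1

/-- `ω` is an `n`-step self-avoiding nearest-neighbour walk on `ℤ³` from `0` -/
def IsSAW (n : ℕ) (ω : Fin (n + 1) → Fin 3 → ℤ) : Prop :=
  ω 0 = 0 ∧ (∀ i : Fin n, Adj (ω i.castSucc) (ω i.succ)) ∧ Function.Injective ω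

/-- the number of `n`-step self-avoiding walks on `ℤ³` from `0` -/
noncomputable def c (n : ℕ) : ℕ := Nat.card {ω : Fin (n + 1) → Fin 3 → ℤ // IsSAW n ω}

/-- the number of `n`-step self-avoiding walks on `ℤ³` from `0` which end at a neighbour of `0` -/
noncomputable def closing (n : ℕ) : ℕ :=
  Nat.card {ω : Fin (n + 1) → Fin 3 → ℤ // IsSAW n ω ∧ ∑ j, |ω (Fin.last n) j| = 1}

/-- the mean of `f` over the `n`-step self-avoiding walks from `0` -/
noncomputable def E (n : ℕ) (f : (Fin (n + 1) → Fin 3 → ℤ) → ℝ) : ℝ :=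
  (∑ᶠ ω : {ω : Fin (n + 1) → Fin 3 → ℤ // IsSAW n ω}, f ω.1) / c n

/-! ### counting -/

theorem Adj.symm {x y : Fin 3 → ℤ} (h : Adj x y) : Adj y x := by
  unfold Adj at *
  rw [← h]
  exact Finset.sum_congr rfl fun j _ => abs_sub_comm _ _

theorem Adj_comm {x y : Fin 3 → ℤ} : Adj x y ↔ Adj y x := ⟨Adj.symm, Adj.symm⟩

theorem Adj_sub {x y : Fin 3 → ℤ} (z : Fin 3 → ℤ) : Adj (x - z) (y - z) ↔ Adj x y := by
  unfold Adj; simp

/-- a self-avoiding path with any starting point -/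
def Pth (n : ℕ) (ω : Fin (n + 1) → Fin 3 → ℤ) : Prop :=
  (∀ i : Fin n, Adj (ω i.castSucc) (ω i.succ)) ∧ Function.Injective ω

theorem Pth_snoc {n : ℕ} (ω : Fin (n + 1) → Fin 3 → ℤ) (v : Fin 3 → ℤ) :
    Pth (n + 1) (Fin.snoc ω v : Fin (n + 1 + 1) → Fin 3 → ℤ) ↔
      Pth n ω ∧ Adj (ω (Fin.last n)) v ∧ ∀ i, ω i ≠ v := by
  unfold Pth
  rw [Fin.snoc_injective_iff]
  have h1 : (∀ i : Fin (n + 1), Adj ((Fin.snoc ω v : Fin (n + 1 + 1) → Fin 3 → ℤ) i.castSucc)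
      ((Fin.snoc ω v : Fin (n + 1 + 1) → Fin 3 → ℤ) i.succ)) ↔
      (∀ i : Fin n, Adj (ω i.castSucc) (ω i.succ)) ∧ Adj (ω (Fin.last n)) v := by
    rw [Fin.forall_fin_succ']
    simp only [Fin.snoc_castSucc, Fin.succ_last, Fin.snoc_last, Fin.succ_castSucc]
  rw [h1]
  simp only [Set.mem_range, not_exists]
  tauto

theorem Pth_cons {n : ℕ} (ω : Fin (n + 1) → Fin 3 → ℤ) (w : Fin 3 → ℤ) :
    Pth (n + 1) (Fin.cons w ω : Fin (n + 1 + 1) → Fin 3 → ℤ) ↔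
      Pth n ω ∧ Adj (ω 0) w ∧ ∀ i, ω i ≠ w := by
  unfold Pth
  rw [Fin.cons_injective_iff]
  have h1 : (∀ i : Fin (n + 1), Adj ((Fin.cons w ω : Fin (n + 1 + 1) → Fin 3 → ℤ) i.castSucc)
      ((Fin.cons w ω : Fin (n + 1 + 1) → Fin 3 → ℤ) i.succ)) ↔
      Adj w (ω 0) ∧ (∀ i : Fin n, Adj (ω i.castSucc) (ω i.succ)) := by
    rw [Fin.forall_fin_succ]
    simp only [Fin.castSucc_zero, Fin.cons_zero, Fin.cons_succ, ← Fin.succ_castSucc]
  rw [h1, Adj_comm (x := w)]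
  simp only [Set.mem_range, not_exists]
  tauto

/-- translation of a path -/
theorem Pth_sub {n : ℕ} (ω : Fin (n + 1) → Fin 3 → ℤ) (z : Fin 3 → ℤ) :
    Pth n (fun i => ω i - z) ↔ Pth n ω := by
  unfold Pth
  simp only [Adj_sub]
  have : (Function.Injective fun i => ω i - z) ↔ Function.Injective ω :=
    ⟨fun h a b hab => h (by simp [hab]), fun h a b hab => h (sub_left_injective hab)⟩
  rw [this]

/-- paths rooted at the site with index `k` -/
def rootEquiv (n : ℕ) (k l : Fin (n + 1)) :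
    {ω : Fin (n + 1) → Fin 3 → ℤ // ω k = 0 ∧ Pth n ω} ≃
      {ω : Fin (n + 1) → Fin 3 → ℤ // ω l = 0 ∧ Pth n ω} where
  toFun ω := ⟨fun i => ω.1 i - ω.1 l, sub_self _, (Pth_sub _ _).2 ω.2.2⟩
  invFun ω := ⟨fun i => ω.1 i - ω.1 k, sub_self _, (Pth_sub _ _).2 ω.2.2⟩
  left_inv := by
    rintro ⟨ω, h, hP⟩
    apply Subtype.ext
    funext i
    simp [h]
  right_inv := by
    rintro ⟨ω, h, hP⟩
    apply Subtype.ext
    funext i
    simp [h]

theorem IsSAW_iff {n : ℕ} {ω : Fin (n + 1) → Fin 3 → ℤ} : IsSAW n ω ↔ ω 0 = 0 ∧ Pth n ω := Iff.rfl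

/-- the self-avoiding walks -/
abbrev W (n : ℕ) : Type := {ω : Fin (n + 1) → Fin 3 → ℤ // IsSAW n ω}

/-- the free neighbours of `x` -/
abbrev Fr {n : ℕ} (ω : Fin (n + 1) → Fin 3 → ℤ) (x : Fin 3 → ℤ) : Type :=
  {v : Fin 3 → ℤ // Adj x v ∧ ∀ i, ω i ≠ v}

/-! ### finiteness and the sums -/

theorem finite_adj (x : Fin 3 → ℤ) : {v : Fin 3 → ℤ | Adj x v}.Finite := by
  refine (Set.finite_Icc (x - 1) (x + 1)).subset ?_
  intro v hv
  have h : ∀ j, |v j - x j| ≤ 1 := by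
    intro j
    have : |v j - x j| ≤ ∑ j : Fin 3, |v j - x j| :=
      Finset.single_le_sum (f := fun j => |v j - x j|) (fun _ _ => abs_nonneg _) (Finset.mem_univ j)
    exact this.trans (le_of_eq hv)
  constructor
  · intro j
    have := abs_le.1 (h j)
    simp only [Pi.sub_apply, Pi.one_apply]
    omega
  · intro j
    have := abs_le.1 (h j)
    simp only [Pi.add_apply, Pi.one_apply]
    omega

instance finite_Fr {n : ℕ} (ω : Fin (n + 1) → Fin 3 → ℤ) (x : Fin 3 → ℤ) : Finite (Fr ω x) :=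
  (((finite_adj x).subset (fun _ h => h.1)) : {v : Fin 3 → ℤ | Adj x v ∧ ∀ i, ω i ≠ v}.Finite)

/-- sums over the walks -/
theorem E_eq (n : ℕ) [Fintype (W n)] (f : (Fin (n + 1) → Fin 3 → ℤ) → ℝ) :
    E n f = (∑ ω : W n, f ω.1) / c n := by
  unfold E
  rw [finsum_eq_sum_of_fintype]

end H131.EU
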