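import Pool.Agent.H131.EU.Comb

/-!
Self-avoiding walks on `ℤ³`: extensions of a walk by several sites at both ends.
-/

set_option autoImplicit false

namespace H131.EU

open Finset

/-- the list `l` of sites is a self-avoiding nearest-neighbour path -/
def Path (l : List (Fin 3 → ℤ)) : Prop := l.Nodup ∧ l.IsChain Adj

/-- the number of `a`-step self-avoiding extensions of `ω` at its end point -/
noncomputable def XE (a : ℕ) {n : ℕ} (ω : Fin (n + 1) → Fin 3 → ℤ) : ℕ :=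
  Nat.card {v : List (Fin 3 → ℤ) // v.length = a ∧ Path (List.ofFn ω ++ v)}

/-- the number of `b`-step self-avoiding extensions of `ω` at its starting point -/
noncomputable def XS (b : ℕ) {n : ℕ} (ω : Fin (n + 1) → Fin 3 → ℤ) : ℕ :=
  Nat.card {w : List (Fin 3 → ℤ) // w.length = b ∧ Path (w ++ List.ofFn ω)}

/-! ### finiteness of the set of walks -/

/-- adding a site at the end -/
def endMap (n : ℕ) (p : Σ ω : W n, Fr ω.1 (ω.1 (Fin.last n))) : W (n + 1) :=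
  ⟨Fin.snoc p.1.1 p.2.1, by
    have h0 : (Fin.snoc p.1.1 p.2.1 : Fin (n + 1 + 1) → Fin 3 → ℤ) 0 = p.1.1 0 := by
      have := Fin.snoc_castSucc (α := fun _ : Fin (n + 1 + 1) => Fin 3 → ℤ) p.2.1 p.1.1 0
      simpa using this
    exact IsSAW_iff.2 ⟨h0.trans p.1.2.1, (Pth_snoc _ _).2 ⟨p.1.2.2, p.2.2.1, p.2.2.2⟩⟩⟩

theorem endMap_bij (n : ℕ) : Function.Bijective (endMap n) := by
  refine ⟨?_, ?_⟩
  · rintro ⟨⟨ω, hω⟩, ⟨v, hv⟩⟩ ⟨⟨ω', hω'⟩, ⟨v', hv'⟩⟩ h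
    have h1 := Subtype.mk.inj h
    obtain ⟨h2, h3⟩ := Fin.snoc_inj.1 h1
    dsimp only at h2 h3
    subst h2
    subst h3
    rfl
  · rintro ⟨ω, hω⟩
    have h := IsSAW_iff.1 hω
    rw [← Fin.snoc_init_self ω] at h
    have h2 := (Pth_snoc _ _).1 h.2
    exact ⟨⟨⟨Fin.init ω, IsSAW_iff.2 ⟨hω.1, h2.1⟩⟩, ⟨ω (Fin.last (n + 1)), h2.2⟩⟩,
      Subtype.ext (Fin.snoc_init_self ω)⟩

/-- adding a site at the start, rooted at index `1` -/
def startMap (n : ℕ) (p : Σ ω : W n, Fr ω.1 (ω.1 0)) :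
    {ω : Fin (n + 1 + 1) → Fin 3 → ℤ // ω 1 = 0 ∧ Pth (n + 1) ω} :=
  ⟨Fin.cons p.2.1 p.1.1, by
    have h0 : (Fin.cons p.2.1 p.1.1 : Fin (n + 1 + 1) → Fin 3 → ℤ) 1 = p.1.1 0 := rfl
    exact ⟨h0.trans p.1.2.1, (Pth_cons _ _).2 ⟨p.1.2.2, p.2.2.1, p.2.2.2⟩⟩⟩

theorem startMap_bij (n : ℕ) : Function.Bijective (startMap n) := by
  refine ⟨?_, ?_⟩
  · rintro ⟨⟨ω, hω⟩, ⟨v, hv⟩⟩ ⟨⟨ω', hω'⟩, ⟨v', hv'⟩⟩ h
    have h1 := Subtype.mk.inj h
    obtain ⟨h2, h3⟩ := Fin.cons_inj.1 h1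
    dsimp only at h2 h3
    subst h2
    subst h3
    rfl
  · rintro ⟨ω, hω⟩
    have h2 := hω.2
    rw [← Fin.cons_self_tail ω] at h2
    have h3 := (Pth_cons _ _).1 h2
    exact ⟨⟨⟨Fin.tail ω, IsSAW_iff.2 ⟨hω.1, h3.1⟩⟩, ⟨ω 0, h3.2⟩⟩,
      Subtype.ext (Fin.cons_self_tail ω)⟩

instance finite_W : ∀ n : ℕ, Finite (W n)
  | 0 => by
    have : Subsingleton (W 0) := ⟨fun a b => Subtype.ext (funext fun i => by
      have hi : i = 0 := Fin.ext (by have := i.isLt; simp only [Fin.val_zero]; omega)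
      rw [hi, a.2.1, b.2.1])⟩
    infer_instance
  | n + 1 => by
    have := finite_W n
    exact Finite.of_surjective _ (endMap_bij n).2

noncomputable instance fintype_W (n : ℕ) : Fintype (W n) := Fintype.ofFinite _

noncomputable instance fintype_Fr {n : ℕ} (ω : Fin (n + 1) → Fin 3 → ℤ) (x : Fin 3 → ℤ) :
    Fintype (Fr ω x) := Fintype.ofFinite _

theorem sumEnd {n : ℕ} (F : (Fin (n + 1 + 1) → Fin 3 → ℤ) → ℝ) :
    ∑ ω : W n, ∑ v : Fr ω.1 (ω.1 (Fin.last n)), F (Fin.snoc ω.1 v.1) =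
      ∑ ω' : W (n + 1), F ω'.1 := by
  rw [Finset.sum_sigma' Finset.univ (fun _ => Finset.univ)]
  exact Fintype.sum_bijective (endMap n) (endMap_bij n)
    (fun p => F (Fin.snoc p.1.1 p.2.1)) (fun ω' => F ω'.1) (fun _ => rfl)

/-- adding a site at the start, rooted at the start -/
def rootMap (n : ℕ) (p : Σ ω : W n, Fr ω.1 (ω.1 0)) : W (n + 1) :=
  rootEquiv (n + 1) 1 0 (startMap n p)

theorem rootMap_bij (n : ℕ) : Function.Bijective (rootMap n) :=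
  (rootEquiv (n + 1) 1 0).bijective.comp (startMap_bij n)

theorem sumStart {n : ℕ} (F : (Fin (n + 1 + 1) → Fin 3 → ℤ) → ℝ)
    (hF : ∀ ω z, F (fun i => ω i - z) = F ω) :
    ∑ ω : W n, ∑ w : Fr ω.1 (ω.1 0), F (Fin.cons w.1 ω.1) = ∑ ω' : W (n + 1), F ω'.1 := by
  rw [Finset.sum_sigma' Finset.univ (fun _ => Finset.univ)]
  refine Fintype.sum_bijective (rootMap n) (rootMap_bij n)
    (fun p => F (Fin.cons p.2.1 p.1.1)) (fun ω' => F ω'.1) (fun p => ?_)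
  exact (hF _ _).symm

/-! ### lists -/

theorem Path.left {l m : List (Fin 3 → ℤ)} (h : Path (l ++ m)) : Path l :=
  ⟨h.1.of_append_left, h.2.left_of_append⟩

theorem Path.right {l m : List (Fin 3 → ℤ)} (h : Path (l ++ m)) : Path m :=
  ⟨h.1.of_append_right, h.2.right_of_append⟩

theorem path_ofFn {n : ℕ} {ω : Fin (n + 1) → Fin 3 → ℤ} : Path (List.ofFn ω) ↔ Pth n ω := by
  unfold Path Pth
  rw [List.nodup_ofFn, List.isChain_ofFn, and_comm]
  refine and_congr_left fun _ => ⟨fun h i => h i.1 (by omega), fun h i hi => h ⟨i, by omega⟩⟩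

theorem ofFn_snoc {n : ℕ} (ω : Fin (n + 1) → Fin 3 → ℤ) (v : Fin 3 → ℤ) :
    List.ofFn (Fin.snoc ω v : Fin (n + 1 + 1) → Fin 3 → ℤ) = List.ofFn ω ++ [v] := by
  rw [List.ofFn_succ']
  simp [List.concat_eq_append]

theorem path_sub {l : List (Fin 3 → ℤ)} (z : Fin 3 → ℤ) : Path (l.map (· - z)) ↔ Path l := by
  unfold Path
  rw [List.nodup_map_iff (fun a b h => sub_left_injective h), List.isChain_map]
  simp only [Adj_sub]

theorem path_snoc_append {n : ℕ} (ω : Fin (n + 1) → Fin 3 → ℤ) (x : Fin 3 → ℤ)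
    (v : List (Fin 3 → ℤ)) :
    Path (List.ofFn (Fin.snoc ω x : Fin (n + 1 + 1) → Fin 3 → ℤ) ++ v) ↔
      Path (List.ofFn ω ++ x :: v) := by
  rw [ofFn_snoc, List.append_assoc]
  rfl

theorem path_append_cons {n : ℕ} (ω : Fin (n + 1) → Fin 3 → ℤ) (x : Fin 3 → ℤ)
    (w : List (Fin 3 → ℤ)) :
    Path (w ++ List.ofFn (Fin.cons x ω : Fin (n + 1 + 1) → Fin 3 → ℤ)) ↔
      Path (w ++ [x] ++ List.ofFn ω) := by
  rw [List.ofFn_cons, List.append_assoc]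
  rfl

theorem path_init {n : ℕ} (ω : Fin (n + 1 + 1) → Fin 3 → ℤ) (w : List (Fin 3 → ℤ))
    (h : Path (w ++ List.ofFn ω)) : Path (w ++ List.ofFn (Fin.init ω : Fin (n + 1) → Fin 3 → ℤ)) := by
  rw [← Fin.snoc_init_self ω, ofFn_snoc, ← List.append_assoc] at h
  exact h.left

/-- the map for the recursion at the end -/
def consMap (a : ℕ) {n : ℕ} (ω : Fin (n + 1) → Fin 3 → ℤ)
    (p : Σ x : Fr ω (ω (Fin.last n)), {v : List (Fin 3 → ℤ) // v.length = a ∧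
      Path (List.ofFn (Fin.snoc ω x.1 : Fin (n + 1 + 1) → Fin 3 → ℤ) ++ v)}) :
    {v : List (Fin 3 → ℤ) // v.length = a + 1 ∧ Path (List.ofFn ω ++ v)} :=
  ⟨p.1.1 :: p.2.1, by simp [p.2.2.1], (path_snoc_append _ _ _).1 p.2.2.2⟩

theorem consMap_bij (a : ℕ) {n : ℕ} (ω : Fin (n + 1) → Fin 3 → ℤ) :
    Function.Bijective (consMap a ω) := by
  refine ⟨?_, ?_⟩
  · rintro ⟨⟨x, hx⟩, ⟨v, hv⟩⟩ ⟨⟨x', hx'⟩, ⟨v', hv'⟩⟩ h
    have h1 := Subtype.mk.inj h
    obtain ⟨h2, h3⟩ := List.cons_eq_cons.1 h1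
    dsimp only at h2 h3
    subst h2
    subst h3
    rfl
  · rintro ⟨v, hl, hv⟩
    obtain ⟨x, v', rfl⟩ := List.exists_cons_of_length_eq_add_one hl
    have h1 := (path_snoc_append ω x v').2 hv
    have h2 := (Pth_snoc _ _).1 (path_ofFn.1 h1.left)
    exact ⟨⟨⟨x, h2.2⟩, ⟨v', by simpa using hl, h1⟩⟩, rfl⟩

/-- the map for the recursion at the start -/
def concatMap (b : ℕ) {n : ℕ} (ω : Fin (n + 1) → Fin 3 → ℤ)
    (p : Σ x : Fr ω (ω 0), {w : List (Fin 3 → ℤ) // w.length = b ∧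
      Path (w ++ List.ofFn (Fin.cons x.1 ω : Fin (n + 1 + 1) → Fin 3 → ℤ))}) :
    {w : List (Fin 3 → ℤ) // w.length = b + 1 ∧ Path (w ++ List.ofFn ω)} :=
  ⟨p.2.1 ++ [p.1.1], by simp [p.2.2.1], (path_append_cons _ _ _).1 p.2.2.2⟩

theorem concatMap_bij (b : ℕ) {n : ℕ} (ω : Fin (n + 1) → Fin 3 → ℤ) :
    Function.Bijective (concatMap b ω) := by
  refine ⟨?_, ?_⟩
  · rintro ⟨⟨x, hx⟩, ⟨v, hv⟩⟩ ⟨⟨x', hx'⟩, ⟨v', hv'⟩⟩ h
    have h1 : v ++ [x] = v' ++ [x'] := Subtype.mk.inj h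
    obtain ⟨h2, h3⟩ := List.append_inj' h1 rfl
    have h4 : x = x' := by simpa using h3
    subst h2
    subst h4
    rfl
  · rintro ⟨w, hl, hw⟩
    have hne : w ≠ [] := by
      rintro rfl
      simp at hl
    obtain ⟨w', x, rfl⟩ : ∃ w' x, w = w' ++ [x] := ⟨w.dropLast, w.getLast hne,
      (List.dropLast_append_getLast hne).symm⟩
    have h1 := (path_append_cons ω x w').2 hw
    have h2 := (Pth_cons _ _).1 (path_ofFn.1 h1.right)
    exact ⟨⟨⟨x, h2.2⟩, ⟨w', by simpa using hl, h1⟩⟩, rfl⟩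

instance finite_XE : ∀ (a : ℕ) {n : ℕ} (ω : Fin (n + 1) → Fin 3 → ℤ),
    Finite {v : List (Fin 3 → ℤ) // v.length = a ∧ Path (List.ofFn ω ++ v)}
  | 0, n, ω => by
    have : Subsingleton {v : List (Fin 3 → ℤ) // v.length = 0 ∧ Path (List.ofFn ω ++ v)} :=
      ⟨fun x y => Subtype.ext (by
        rw [List.length_eq_zero_iff.1 x.2.1, List.length_eq_zero_iff.1 y.2.1])⟩
    infer_instance
  | a + 1, n, ω => by
    have := fun x : Fr ω (ω (Fin.last n)) =>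
      finite_XE a (Fin.snoc ω x.1 : Fin (n + 1 + 1) → Fin 3 → ℤ)
    exact Finite.of_surjective _ (consMap_bij a ω).2

instance finite_XS : ∀ (b : ℕ) {n : ℕ} (ω : Fin (n + 1) → Fin 3 → ℤ),
    Finite {w : List (Fin 3 → ℤ) // w.length = b ∧ Path (w ++ List.ofFn ω)}
  | 0, n, ω => by
    have : Subsingleton {w : List (Fin 3 → ℤ) // w.length = 0 ∧ Path (w ++ List.ofFn ω)} :=
      ⟨fun x y => Subtype.ext (by
        rw [List.length_eq_zero_iff.1 x.2.1, List.length_eq_zero_iff.1 y.2.1])⟩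
    infer_instance
  | b + 1, n, ω => by
    have := fun x : Fr ω (ω 0) => finite_XS b (Fin.cons x.1 ω : Fin (n + 1 + 1) → Fin 3 → ℤ)
    exact Finite.of_surjective _ (concatMap_bij b ω).2

theorem XE_succ (a : ℕ) {n : ℕ} (ω : Fin (n + 1) → Fin 3 → ℤ) :
    XE (a + 1) ω = ∑ x : Fr ω (ω (Fin.last n)),
      XE a (Fin.snoc ω x.1 : Fin (n + 1 + 1) → Fin 3 → ℤ) := by
  unfold XE
  rw [← Nat.card_sigma]
  exact (Nat.card_congr (Equiv.ofBijective _ (consMap_bij a ω))).symm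

theorem XS_succ (b : ℕ) {n : ℕ} (ω : Fin (n + 1) → Fin 3 → ℤ) :
    XS (b + 1) ω = ∑ x : Fr ω (ω 0), XS b (Fin.cons x.1 ω : Fin (n + 1 + 1) → Fin 3 → ℤ) := by
  unfold XS
  rw [← Nat.card_sigma]
  exact (Nat.card_congr (Equiv.ofBijective _ (concatMap_bij b ω))).symm

theorem XE_zero {n : ℕ} {ω : Fin (n + 1) → Fin 3 → ℤ} (h : Pth n ω) : XE 0 ω = 1 := by
  unfold XE
  rw [Nat.card_eq_one_iff_unique]
  refine ⟨⟨fun x y => Subtype.ext (by
    rw [List.length_eq_zero_iff.1 x.2.1, List.length_eq_zero_iff.1 y.2.1])⟩, ⟨⟨[], rfl, ?_⟩⟩⟩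
  rw [List.append_nil]
  exact path_ofFn.2 h

theorem XS_zero {n : ℕ} {ω : Fin (n + 1) → Fin 3 → ℤ} (h : Pth n ω) : XS 0 ω = 1 := by
  unfold XS
  rw [Nat.card_eq_one_iff_unique]
  refine ⟨⟨fun x y => Subtype.ext (by
    rw [List.length_eq_zero_iff.1 x.2.1, List.length_eq_zero_iff.1 y.2.1])⟩, ⟨⟨[], rfl, ?_⟩⟩⟩
  rw [List.nil_append]
  exact path_ofFn.2 h

theorem XE_zero_le {n : ℕ} (ω : Fin (n + 1) → Fin 3 → ℤ) : XE 0 ω ≤ 1 := by
  unfold XE
  rw [Finite.card_le_one_iff_subsingleton]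
  exact ⟨fun x y => Subtype.ext (by
    rw [List.length_eq_zero_iff.1 x.2.1, List.length_eq_zero_iff.1 y.2.1])⟩

theorem XS_zero_le {n : ℕ} (ω : Fin (n + 1) → Fin 3 → ℤ) : XS 0 ω ≤ 1 := by
  unfold XS
  rw [Finite.card_le_one_iff_subsingleton]
  exact ⟨fun x y => Subtype.ext (by
    rw [List.length_eq_zero_iff.1 x.2.1, List.length_eq_zero_iff.1 y.2.1])⟩

/-- `1 +` the number of neighbours -/
noncomputable def Q : ℕ := Nat.card {v : Fin 3 → ℤ // Adj 0 v} + 1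

theorem card_Fr_le {n : ℕ} (ω : Fin (n + 1) → Fin 3 → ℤ) (x : Fin 3 → ℤ) :
    Fintype.card (Fr ω x) ≤ Q := by
  rw [← Nat.card_eq_fintype_card]
  have : Finite {v : Fin 3 → ℤ // Adj 0 v} := (finite_adj 0)
  refine (Nat.card_le_card_of_injective (fun v : Fr ω x =>
    (⟨v.1 - x, by have := (Adj_sub x).2 v.2.1; simpa using this⟩ : {v : Fin 3 → ℤ // Adj 0 v}))
    ?_).trans (Nat.le_succ _)
  intro a b h
  exact Subtype.ext (sub_left_injective (Subtype.mk.inj h))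

theorem XE_le (a : ℕ) : ∀ {n : ℕ} (ω : Fin (n + 1) → Fin 3 → ℤ), XE a ω ≤ Q ^ a := by
  induction a with
  | zero => intro n ω; simpa using XE_zero_le ω
  | succ a ih =>
    intro n ω
    rw [XE_succ]
    calc _ ≤ ∑ x : Fr ω (ω (Fin.last n)), Q ^ a := Finset.sum_le_sum fun x _ => ih _
      _ = Fintype.card (Fr ω (ω (Fin.last n))) * Q ^ a := by
          rw [Finset.sum_const, Finset.card_univ, smul_eq_mul]
      _ ≤ Q * Q ^ a := Nat.mul_le_mul_right _ (card_Fr_le _ _)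
      _ = Q ^ (a + 1) := by ring

theorem XS_le (b : ℕ) : ∀ {n : ℕ} (ω : Fin (n + 1) → Fin 3 → ℤ), XS b ω ≤ Q ^ b := by
  induction b with
  | zero => intro n ω; simpa using XS_zero_le ω
  | succ b ih =>
    intro n ω
    rw [XS_succ]
    calc _ ≤ ∑ x : Fr ω (ω 0), Q ^ b := Finset.sum_le_sum fun x _ => ih _
      _ = Fintype.card (Fr ω (ω 0)) * Q ^ b := by
          rw [Finset.sum_const, Finset.card_univ, smul_eq_mul]
      _ ≤ Q * Q ^ b := Nat.mul_le_mul_right _ (card_Fr_le _ _)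
      _ = Q ^ (b + 1) := by ring

theorem ofFn_sub {n : ℕ} (ω : Fin (n + 1) → Fin 3 → ℤ) (z : Fin 3 → ℤ) :
    List.ofFn (fun i => ω i - z) = (List.ofFn ω).map (· - z) := by
  rw [List.map_ofFn]
  rfl

theorem XS_sub (b : ℕ) {n : ℕ} (ω : Fin (n + 1) → Fin 3 → ℤ) (z : Fin 3 → ℤ) :
    XS b (fun i => ω i - z) = XS b ω := by
  unfold XS
  refine (Nat.card_congr (Equiv.ofBijective (fun w : {w : List (Fin 3 → ℤ) // w.length = b ∧
    Path (w ++ List.ofFn ω)} => (⟨w.1.map (· - z), by simp [w.2.1], by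
      rw [ofFn_sub, ← List.map_append, path_sub]; exact w.2.2⟩ :
      {w : List (Fin 3 → ℤ) // w.length = b ∧ Path (w ++ List.ofFn (fun i => ω i - z))}))
      ⟨?_, ?_⟩)).symm
  · intro x y h
    exact Subtype.ext (List.map_injective_iff.2 (fun a b h => sub_left_injective h)
      (Subtype.mk.inj h))
  · rintro ⟨w, hl, hw⟩
    have e : (w.map (· + z)).map (· - z) = w := by simp [Function.comp_def]
    refine ⟨⟨w.map (· + z), by simpa using hl, ?_⟩, Subtype.ext e⟩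
    rw [← path_sub z, List.map_append, e, ← ofFn_sub]
    exact hw

/-- `XS b` does not increase when the walk is extended at the end -/
theorem XS_mono (b : ℕ) {n : ℕ} (ω : Fin (n + 1 + 1) → Fin 3 → ℤ) :
    XS b ω ≤ XS b (Fin.init ω : Fin (n + 1) → Fin 3 → ℤ) := by
  unfold XS
  refine Nat.card_le_card_of_injective (fun w => ⟨w.1, w.2.1, path_init ω w.1 w.2.2⟩) ?_
  intro x y h
  exact Subtype.ext (Subtype.mk.inj h)

/-! ### sums over the walks -/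

theorem card_W (n : ℕ) : Fintype.card (W n) = c n := by
  unfold c
  rw [Nat.card_eq_fintype_card]

theorem sum_XE (a : ℕ) : ∀ n : ℕ, ∑ ω : W n, (XE a ω.1 : ℝ) = c (n + a) := by
  induction a with
  | zero =>
    intro n
    rw [Finset.sum_congr rfl (fun ω _ => by rw [XE_zero ω.2.2])]
    simp [card_W]
  | succ a ih =>
    intro n
    have h := sumEnd (n := n) (fun ω => (XE a ω : ℝ))
    rw [ih (n + 1)] at h
    rw [show n + (a + 1) = n + 1 + a by ring, ← h]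
    refine Finset.sum_congr rfl fun ω _ => ?_
    rw [XE_succ]
    push_cast
    rfl

theorem sum_XS (b : ℕ) : ∀ n : ℕ, ∑ ω : W n, (XS b ω.1 : ℝ) = c (n + b) := by
  induction b with
  | zero =>
    intro n
    rw [Finset.sum_congr rfl (fun ω _ => by rw [XS_zero ω.2.2])]
    simp [card_W]
  | succ b ih =>
    intro n
    have h := sumStart (n := n) (fun ω => (XS b ω : ℝ)) (fun ω z => by rw [XS_sub])
    rw [ih (n + 1)] at h
    rw [show n + (b + 1) = n + 1 + b by ring, ← h]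
    refine Finset.sum_congr rfl fun ω _ => ?_
    rw [XS_succ]
    push_cast
    rfl

/-- the number of `b`-step extensions at the start of the walk without its last site, which hit the
last site -/
noncomputable def Hh (b : ℕ) {n : ℕ} (ω : Fin (n + 1 + 1) → Fin 3 → ℤ) : ℝ :=
  (XS b (Fin.init ω : Fin (n + 1) → Fin 3 → ℤ) : ℝ) - XS b ω

theorem Hh_nonneg (b : ℕ) {n : ℕ} (ω : Fin (n + 1 + 1) → Fin 3 → ℤ) : 0 ≤ Hh b ω := by
  unfold Hh
  have : (XS b ω : ℝ) ≤ XS b (Fin.init ω : Fin (n + 1) → Fin 3 → ℤ) := by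
    exact_mod_cast XS_mono b ω
  linarith

theorem Hh_sub (b : ℕ) {n : ℕ} (ω : Fin (n + 1 + 1) → Fin 3 → ℤ) (z : Fin 3 → ℤ) :
    Hh b (fun i => ω i - z) = Hh b ω := by
  unfold Hh
  rw [XS_sub]
  have h : (Fin.init (fun i => ω i - z) : Fin (n + 1) → Fin 3 → ℤ) =
      fun i => (Fin.init ω : Fin (n + 1) → Fin 3 → ℤ) i - z := rfl
  rw [h, XS_sub]

theorem init_cons {n : ℕ} (ω : Fin (n + 1 + 1) → Fin 3 → ℤ) (w : Fin 3 → ℤ) :
    (Fin.init (Fin.cons w ω : Fin (n + 1 + 1 + 1) → Fin 3 → ℤ) : Fin (n + 1 + 1) → Fin 3 → ℤ) =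
      Fin.cons w (Fin.init ω : Fin (n + 1) → Fin 3 → ℤ) := by
  funext i
  refine Fin.cases ?_ (fun j => ?_) i
  · rfl
  · rw [Fin.cons_succ]
    unfold Fin.init
    rw [← Fin.succ_castSucc, Fin.cons_succ]

open Classical in
/-- one step of the recursion for `Hh` -/
theorem Hh_succ (b : ℕ) {n : ℕ} (ω : W (n + 1)) :
    Hh (b + 1) ω.1 ≤ (if Adj (ω.1 0) (ω.1 (Fin.last (n + 1))) then (Q : ℝ) ^ b else 0) +
      ∑ w : Fr ω.1 (ω.1 0), Hh b (Fin.cons w.1 ω.1 : Fin (n + 1 + 1 + 1) → Fin 3 → ℤ) := by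
  obtain ⟨ω, hω⟩ := ω
  dsimp only
  obtain ⟨ν, hν⟩ : ∃ ν : Fin (n + 1) → Fin 3 → ℤ, ν = Fin.init ω := ⟨_, rfl⟩
  obtain ⟨v, hv⟩ : ∃ v : Fin 3 → ℤ, v = ω (Fin.last (n + 1)) := ⟨_, rfl⟩
  have hων : ω = Fin.snoc ν v := by rw [hν, hv, Fin.snoc_init_self]
  have h0 : ω 0 = ν 0 := by rw [hν]; rfl
  have hvν : ∀ i, ν i ≠ v := by
    have h := hω.2
    have h2 : Pth (n + 1) ω := h
    rw [hων] at h2
    exact ((Pth_snoc _ _).1 h2).2.2
  -- the free neighbours of the start of `ν`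
  have key : (∑ x : Fr ν (ν 0), (XS b (Fin.cons x.1 ν : Fin (n + 1 + 1) → Fin 3 → ℤ) : ℝ)) ≤
      (if Adj (ω 0) v then (Q : ℝ) ^ b else 0) +
      ∑ w : Fr ω (ω 0), (XS b (Fin.cons w.1 ν : Fin (n + 1 + 1) → Fin 3 → ℤ) : ℝ) := by
    have fin1 : {x : Fin 3 → ℤ | Adj (ν 0) x ∧ ∀ i, ν i ≠ x}.Finite := finite_Fr ν (ν 0)
    have fin2 : {x : Fin 3 → ℤ | Adj (ω 0) x ∧ ∀ i, ω i ≠ x}.Finite := finite_Fr ω (ω 0)
    rw [← Finset.sum_subtype fin1.toFinset (p := fun x => Adj (ν 0) x ∧ ∀ i, ν i ≠ x)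
        (by simp) (fun x => (XS b (Fin.cons x ν : Fin (n + 1 + 1) → Fin 3 → ℤ) : ℝ)),
      ← Finset.sum_subtype fin2.toFinset (p := fun x => Adj (ω 0) x ∧ ∀ i, ω i ≠ x)
        (by simp) (fun x => (XS b (Fin.cons x ν : Fin (n + 1 + 1) → Fin 3 → ℤ) : ℝ))]
    have hsub : ∀ x, x ∈ fin1.toFinset → x ≠ v → x ∈ fin2.toFinset := by
      intro x hx hxv
      rw [Set.Finite.mem_toFinset] at hx ⊢
      refine ⟨by rw [h0]; exact hx.1, ?_⟩
      rw [hων, Fin.forall_fin_succ']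
      refine ⟨fun i => by rw [Fin.snoc_castSucc]; exact hx.2 i, ?_⟩
      rw [Fin.snoc_last]
      exact hxv.symm
    by_cases hm : v ∈ fin1.toFinset
    · have hadj : Adj (ω 0) v := by
        rw [Set.Finite.mem_toFinset] at hm
        rw [h0]; exact hm.1
      rw [if_pos hadj, ← Finset.add_sum_erase _ _ hm]
      have h1 : (XS b (Fin.cons v ν : Fin (n + 1 + 1) → Fin 3 → ℤ) : ℝ) ≤ (Q : ℝ) ^ b := by
        exact_mod_cast XS_le b _
      have h2 : ∑ x ∈ fin1.toFinset.erase v,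
          (XS b (Fin.cons x ν : Fin (n + 1 + 1) → Fin 3 → ℤ) : ℝ) ≤
          ∑ x ∈ fin2.toFinset, (XS b (Fin.cons x ν : Fin (n + 1 + 1) → Fin 3 → ℤ) : ℝ) :=
        Finset.sum_le_sum_of_subset_of_nonneg
          (fun x hx => hsub x (Finset.mem_of_mem_erase hx) (Finset.ne_of_mem_erase hx))
          (fun _ _ _ => Nat.cast_nonneg _)
      linarith
    · have h2 : ∑ x ∈ fin1.toFinset,
          (XS b (Fin.cons x ν : Fin (n + 1 + 1) → Fin 3 → ℤ) : ℝ) ≤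
          ∑ x ∈ fin2.toFinset, (XS b (Fin.cons x ν : Fin (n + 1 + 1) → Fin 3 → ℤ) : ℝ) :=
        Finset.sum_le_sum_of_subset_of_nonneg
          (fun x hx => hsub x hx (fun h => hm (h ▸ hx))) (fun _ _ _ => Nat.cast_nonneg _)
      have h3 : (0 : ℝ) ≤ (if Adj (ω 0) v then (Q : ℝ) ^ b else 0) := by
        split_ifs <;> positivity
      linarith
  have e1 : Hh (b + 1) ω = (∑ x : Fr ν (ν 0),
      (XS b (Fin.cons x.1 ν : Fin (n + 1 + 1) → Fin 3 → ℤ) : ℝ)) -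
      ∑ w : Fr ω (ω 0), (XS b (Fin.cons w.1 ω : Fin (n + 1 + 1 + 1) → Fin 3 → ℤ) : ℝ) := by
    unfold Hh
    rw [← hν, XS_succ, XS_succ]
    push_cast
    rfl
  have e2 : ∑ w : Fr ω (ω 0), Hh b (Fin.cons w.1 ω : Fin (n + 1 + 1 + 1) → Fin 3 → ℤ) =
      ∑ w : Fr ω (ω 0), (XS b (Fin.cons w.1 ν : Fin (n + 1 + 1) → Fin 3 → ℤ) : ℝ) -
      ∑ w : Fr ω (ω 0), (XS b (Fin.cons w.1 ω : Fin (n + 1 + 1 + 1) → Fin 3 → ℤ) : ℝ) := by
    rw [← Finset.sum_sub_distrib]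
    refine Finset.sum_congr rfl fun w _ => ?_
    unfold Hh
    rw [init_cons, hν]
  rw [e1, e2]
  subst hv
  linarith

open Classical in
theorem closing_sum (n : ℕ) : ∑ ω : W n, (if Adj (ω.1 0) (ω.1 (Fin.last n)) then (1 : ℝ) else 0) =
    closing n := by
  have h : ∀ ω : W n, Adj (ω.1 0) (ω.1 (Fin.last n)) ↔ ∑ j, |ω.1 (Fin.last n) j| = 1 := by
    intro ω
    unfold Adj
    rw [ω.2.1]
    simp
  rw [Finset.sum_congr rfl (fun ω _ => if_congr (h ω) rfl rfl), Finset.sum_boole]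
  unfold closing
  rw [← Nat.card_congr (Equiv.subtypeSubtypeEquivSubtypeInter (IsSAW n)
    (fun ω => ∑ j, |ω (Fin.last n) j| = 1)), Nat.card_eq_fintype_card, Fintype.card_subtype]

theorem one_le_Q : (1 : ℝ) ≤ Q := by
  unfold Q
  push_cast
  linarith [(Nat.cast_nonneg (Nat.card {v : Fin 3 → ℤ // Adj 0 v}) : (0 : ℝ) ≤ _)]

theorem sum_Hh (b : ℕ) : ∀ m : ℕ, ∑ ω : W (m + 1), Hh b ω.1 ≤
    (Q : ℝ) ^ b * ∑ i ∈ range b, (closing (m + 1 + i) : ℝ) := by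
  classical
  have hQ := one_le_Q
  induction b with
  | zero =>
    intro m
    have h : ∀ ω : W (m + 1), Hh 0 ω.1 = 0 := by
      intro ω
      have h1 : Pth (m + 1) ω.1 := ω.2.2
      have h2 := h1
      rw [← Fin.snoc_init_self ω.1] at h2
      have h3 := ((Pth_snoc _ _).1 h2).1
      unfold Hh
      rw [XS_zero h1, XS_zero h3]
      simp
    rw [Finset.sum_congr rfl (fun ω _ => h ω)]
    simp
  | succ b ih =>
    intro m
    have h1 := sumStart (n := m + 1) (fun ω => Hh b ω) (fun ω z => Hh_sub b ω z)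
    have h2 := ih (m + 1)
    rw [← h1] at h2
    have h3 : ∑ ω : W (m + 1), (if Adj (ω.1 0) (ω.1 (Fin.last (m + 1))) then (Q : ℝ) ^ b else 0) =
        (Q : ℝ) ^ b * closing (m + 1) := by
      rw [← closing_sum, Finset.mul_sum]
      refine Finset.sum_congr rfl fun ω _ => ?_
      rw [mul_ite, mul_one, mul_zero]
    have h4 : (Q : ℝ) ^ b * ∑ i ∈ range (b + 1), (closing (m + 1 + i) : ℝ) ≤
        (Q : ℝ) ^ (b + 1) * ∑ i ∈ range (b + 1), (closing (m + 1 + i) : ℝ) :=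
      mul_le_mul_of_nonneg_right (pow_le_pow_right₀ hQ (by omega))
        (Finset.sum_nonneg fun _ _ => Nat.cast_nonneg _)
    refine le_trans ?_ h4
    calc ∑ ω : W (m + 1), Hh (b + 1) ω.1
        ≤ ∑ ω : W (m + 1), ((if Adj (ω.1 0) (ω.1 (Fin.last (m + 1))) then (Q : ℝ) ^ b else 0) +
          ∑ w : Fr ω.1 (ω.1 0), Hh b (Fin.cons w.1 ω.1 : Fin (m + 1 + 1 + 1) → Fin 3 → ℤ)) :=
          Finset.sum_le_sum fun ω _ => Hh_succ b ω
      _ = (Q : ℝ) ^ b * closing (m + 1) + ∑ ω : W (m + 1), ∑ w : Fr ω.1 (ω.1 0),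
          Hh b (Fin.cons w.1 ω.1 : Fin (m + 1 + 1 + 1) → Fin 3 → ℤ) := by
          rw [Finset.sum_add_distrib, h3]
      _ ≤ (Q : ℝ) ^ b * closing (m + 1) +
          (Q : ℝ) ^ b * ∑ i ∈ range b, (closing (m + 1 + 1 + i) : ℝ) := by linarith
      _ = (Q : ℝ) ^ b * ∑ i ∈ range (b + 1), (closing (m + 1 + i) : ℝ) := by
          rw [Finset.sum_range_succ', add_zero, mul_add, add_comm]
          congr 2
          refine Finset.sum_congr rfl fun i _ => ?_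
          rw [show m + 1 + 1 + i = m + 1 + (i + 1) by ring]

theorem N_step (a b n : ℕ) : ∑ ω : W n, (XE (a + 1) ω.1 : ℝ) * XS b ω.1 =
    ∑ ω : W (n + 1), (XE a ω.1 : ℝ) * XS b ω.1 + ∑ ω : W (n + 1), (XE a ω.1 : ℝ) * Hh b ω.1 := by
  have h := sumEnd (n := n) (fun ω => (XE a ω : ℝ) *
    XS b (Fin.init ω : Fin (n + 1) → Fin 3 → ℤ))
  rw [← Finset.sum_add_distrib]
  have h2 : ∀ ω : W (n + 1), (XE a ω.1 : ℝ) * XS b ω.1 + (XE a ω.1 : ℝ) * Hh b ω.1 =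
      (XE a ω.1 : ℝ) * XS b (Fin.init ω.1 : Fin (n + 1) → Fin 3 → ℤ) := by
    intro ω
    unfold Hh
    ring
  rw [Finset.sum_congr rfl (fun ω _ => h2 ω), ← h]
  refine Finset.sum_congr rfl fun ω _ => ?_
  rw [XE_succ]
  push_cast
  rw [Finset.sum_mul]
  refine Finset.sum_congr rfl fun v _ => ?_
  rw [Fin.init_snoc]

/-- the number of pairs of extensions at the two ends -/
theorem N_bound (a b : ℕ) : ∀ n : ℕ,
    |∑ ω : W n, (XE a ω.1 : ℝ) * XS b ω.1 - c (n + a + b)| ≤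
      a * (Q : ℝ) ^ (a + b) * ∑ i ∈ range (a + b), (closing (n + 1 + i) : ℝ) := by
  have hQ := one_le_Q
  induction a with
  | zero =>
    intro n
    have h : ∑ ω : W n, (XE 0 ω.1 : ℝ) * XS b ω.1 = c (n + b) := by
      rw [← sum_XS]
      refine Finset.sum_congr rfl fun ω _ => ?_
      rw [XE_zero ω.2.2]
      simp
    rw [show n + 0 + b = n + b from rfl, h]
    simp
  | succ a ih =>
    intro n
    rw [N_step]
    have h1 := ih (n + 1)
    have hnn : ∀ m : ℕ, (0 : ℝ) ≤ (closing m : ℝ) := fun m => Nat.cast_nonneg _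
    obtain ⟨R, hR⟩ : ∃ R : ℝ, R = ∑ i ∈ range (a + 1 + b), (closing (n + 1 + i) : ℝ) := ⟨_, rfl⟩
    have hR0 : 0 ≤ R := by rw [hR]; exact Finset.sum_nonneg fun _ _ => hnn _
    have hR1 : ∑ i ∈ range (a + b), (closing (n + 1 + 1 + i) : ℝ) ≤ R := by
      rw [hR, show a + 1 + b = a + b + 1 by ring, Finset.sum_range_succ']
      have : ∑ i ∈ range (a + b), (closing (n + 1 + 1 + i) : ℝ) =
          ∑ i ∈ range (a + b), (closing (n + 1 + (i + 1)) : ℝ) :=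
        Finset.sum_congr rfl fun i _ => by rw [show n + 1 + 1 + i = n + 1 + (i + 1) by ring]
      rw [this]
      linarith [hnn (n + 1 + 0)]
    have hR2 : ∑ i ∈ range b, (closing (n + 1 + i) : ℝ) ≤ R := by
      rw [hR]
      exact Finset.sum_le_sum_of_subset_of_nonneg (Finset.range_mono (by omega)) fun _ _ _ => hnn _
    have h2 : ∑ ω : W (n + 1), (XE a ω.1 : ℝ) * Hh b ω.1 ≤ (Q : ℝ) ^ (a + b) * R := by
      calc ∑ ω : W (n + 1), (XE a ω.1 : ℝ) * Hh b ω.1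
          ≤ ∑ ω : W (n + 1), (Q : ℝ) ^ a * Hh b ω.1 := by
            refine Finset.sum_le_sum fun ω _ => ?_
            apply mul_le_mul_of_nonneg_right _ (Hh_nonneg b _)
            exact_mod_cast XE_le a ω.1
        _ = (Q : ℝ) ^ a * ∑ ω : W (n + 1), Hh b ω.1 := by rw [Finset.mul_sum]
        _ ≤ (Q : ℝ) ^ a * ((Q : ℝ) ^ b * ∑ i ∈ range b, (closing (n + 1 + i) : ℝ)) :=
            mul_le_mul_of_nonneg_left (sum_Hh b n) (by positivity)
        _ ≤ (Q : ℝ) ^ a * ((Q : ℝ) ^ b * R) := by gcongr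
        _ = (Q : ℝ) ^ (a + b) * R := by rw [pow_add]; ring
    have h3 : 0 ≤ ∑ ω : W (n + 1), (XE a ω.1 : ℝ) * Hh b ω.1 :=
      Finset.sum_nonneg fun ω _ => mul_nonneg (Nat.cast_nonneg _) (Hh_nonneg b _)
    have h4 : (a : ℝ) * (Q : ℝ) ^ (a + b) * ∑ i ∈ range (a + b), (closing (n + 1 + 1 + i) : ℝ) ≤
        a * (Q : ℝ) ^ (a + b) * R := mul_le_mul_of_nonneg_left hR1 (by positivity)
    have h5 : ((a : ℝ) + 1) * (Q : ℝ) ^ (a + b) * R ≤
        ((a : ℝ) + 1) * (Q : ℝ) ^ (a + 1 + b) * R := by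
      apply mul_le_mul_of_nonneg_right _ hR0
      apply mul_le_mul_of_nonneg_left _ (by positivity)
      exact pow_le_pow_right₀ hQ (by omega)
    rw [show n + (a + 1) + b = n + 1 + a + b by ring, ← hR]
    push_cast
    have h6 := abs_le.1 h1
    have h7 : ((a : ℝ) + 1) * (Q : ℝ) ^ (a + b) * R = a * (Q : ℝ) ^ (a + b) * R +
      (Q : ℝ) ^ (a + b) * R := by ring
    rw [abs_le]
    constructor
    · have h8 : 0 ≤ (Q : ℝ) ^ (a + b) * R := by positivity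
      linarith [h6.1]
    · linarith [h6.2]

end H131.EU
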