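import Pool.Agent.H131.EU.Ext
import Pool.Agent.H131.EU.Ana
import Pool.Agent.H982.CL7

/-!
Self-avoiding walks on `ℤ³`: covariances of the numbers of extensions at the two ends.
-/

set_option autoImplicit false

namespace H131.EU

open Filter Topology

/-! ### scaling of the criteria -/

theorem recurs_of_tendsto {x : ℕ → ℝ} (h : Tendsto x atTop (𝓝 0)) :
    ∃ S, Recurs S ∧ ∀ δ : ℝ, 0 < δ → ∀ᶠ n : ℕ in atTop, n ∈ S → -δ ≤ x n ∧ -δ ≤ x (n + 1) := by
  refine ⟨Set.univ, Recurs_univ, fun δ hδ => ?_⟩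
  have h1 := h.eventually (lt_mem_nhds (show -δ < 0 by linarith))
  have h2 := (tendsto_add_atTop_nat 1).eventually h1
  filter_upwards [h1, h2] with n a b _ using ⟨a.le, b.le⟩

theorem recurs_of_tendsto' {x : ℕ → ℝ} (h : Tendsto x atTop (𝓝 0)) :
    ∃ S, Recurs S ∧ ∀ δ : ℝ, 0 < δ → ∀ᶠ n : ℕ in atTop, n ∈ S → x n ≤ δ ∧ x (n + 1) ≤ δ := by
  refine ⟨Set.univ, Recurs_univ, fun δ hδ => ?_⟩
  have h1 := h.eventually (gt_mem_nhds hδ)
  have h2 := (tendsto_add_atTop_nat 1).eventually h1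
  filter_upwards [h1, h2] with n a b _ using ⟨a.le, b.le⟩

namespace Hyp

variable {c V : ℕ → ℝ} {μ C K M : ℝ} (H : Hyp c V μ C K M) {κ : ℝ} (hκ : 0 < κ) {x : ℕ → ℝ}
  (hx : ∀ n, V n = κ * x n)

include H hκ hx

theorem tfae' : [Tendsto (fun n => c (n + 1) / c n) atTop (𝓝 μ), Tendsto x atTop (𝓝 0),
    ∃ S, Recurs S ∧ ∀ δ : ℝ, 0 < δ → ∀ᶠ n : ℕ in atTop, n ∈ S → -δ ≤ x n ∧ -δ ≤ x (n + 1),
    ∃ S, Recurs S ∧ ∀ δ : ℝ, 0 < δ → ∀ᶠ n : ℕ in atTop, n ∈ S → x n ≤ δ ∧ x (n + 1) ≤ δ].TFAE := by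
  tfae_have 1 → 2 := by
    intro h
    have h1 := (H.V_tendsto h).const_mul κ⁻¹
    rw [mul_zero] at h1
    refine h1.congr fun n => ?_
    rw [hx]
    field_simp
  tfae_have 2 → 3 := recurs_of_tendsto
  tfae_have 2 → 4 := recurs_of_tendsto'
  tfae_have 3 → 1 := by
    rintro ⟨S, hS, hs⟩
    refine H.of_lower hS fun δ hδ => ?_
    filter_upwards [hs (δ / κ) (by positivity)] with n hn hnS
    obtain ⟨h1, h2⟩ := hn hnS
    rw [hx, hx]
    have e : κ * (δ / κ) = δ := by field_simp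
    constructor
    · have := mul_le_mul_of_nonneg_left h1 hκ.le
      linarith
    · have := mul_le_mul_of_nonneg_left h2 hκ.le
      linarith
  tfae_have 4 → 1 := by
    rintro ⟨S, hS, hs⟩
    refine H.of_upper hS fun δ hδ => ?_
    filter_upwards [hs (δ / κ) (by positivity)] with n hn hnS
    obtain ⟨h1, h2⟩ := hn hnS
    rw [hx, hx]
    have e : κ * (δ / κ) = δ := by field_simp
    constructor
    · have := mul_le_mul_of_nonneg_left h1 hκ.le
      linarith
    · have := mul_le_mul_of_nonneg_left h2 hκ.le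
      linarith
  tfae_finish

theorem opposite' (δ : ℝ) (hδ : 0 < δ) : ∀ᶠ n in atTop, x n * x (n + 1) ≤ δ := by
  filter_upwards [H.opposite (κ ^ 2 * δ) (by positivity)] with n hn
  rw [hx, hx] at hn
  have h2 : κ ^ 2 * (x n * x (n + 1)) ≤ κ ^ 2 * δ := by linarith
  exact le_of_mul_le_mul_left h2 (by positivity)

end Hyp

/-! ### the class `O (n^(-1/3) exp (B (log log n)²))` -/

theorem phi_mono {K K' : ℝ} (h : K ≤ K') (n : ℕ) : phi K n ≤ phi K' n := by
  unfold phi
  apply mul_le_mul_of_nonneg_left _ (by positivity)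
  exact Real.exp_le_exp.2 (mul_le_mul_of_nonneg_right h (sq_nonneg _))

theorem phi_eq (K : ℝ) (n : ℕ) : phi K n = 1 / H982.CL.cr n * H982.CL.EE K n := by
  unfold phi H982.CL.EE
  rw [H982.CL.rpow_neg_third]

/-- `|f n| ≤ B n^(-1/3) exp (B (log log n)²)` for `n ≥ 3` -/
def Small (f : ℕ → ℝ) : Prop := ∃ B : ℝ, 0 < B ∧ ∀ n : ℕ, 3 ≤ n → |f n| ≤ B * phi B n

theorem Small.of_le {f : ℕ → ℝ} {C K : ℝ} (h : ∀ n : ℕ, 3 ≤ n → |f n| ≤ C * phi K n) :
    Small f := by
  refine ⟨|C| + |K| + 1, by positivity, fun n hn => (h n hn).trans ?_⟩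
  have h1 : C ≤ |C| + |K| + 1 := by linarith [le_abs_self C, abs_nonneg K]
  have h2 : K ≤ |C| + |K| + 1 := by linarith [le_abs_self K, abs_nonneg C]
  exact mul_le_mul h1 (phi_mono h2 n) (phi_nonneg _ _) (by positivity)

theorem Small.add {f g : ℕ → ℝ} (hf : Small f) (hg : Small g) : Small (fun n => f n + g n) := by
  obtain ⟨B1, h1, hf⟩ := hf
  obtain ⟨B2, h2, hg⟩ := hg
  refine ⟨B1 + B2, by positivity, fun n hn => ?_⟩
  have a1 := hf n hn
  have a2 := hg n hn
  have p1 := mul_le_mul_of_nonneg_left (phi_mono (show B1 ≤ B1 + B2 by linarith) n) h1.le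
  have p2 := mul_le_mul_of_nonneg_left (phi_mono (show B2 ≤ B1 + B2 by linarith) n) h2.le
  have := abs_add_le (f n) (g n)
  linarith

theorem Small.neg {f : ℕ → ℝ} (hf : Small f) : Small (fun n => -f n) := by
  obtain ⟨B, h, hf⟩ := hf
  exact ⟨B, h, fun n hn => by rw [abs_neg]; exact hf n hn⟩

theorem Small.sub {f g : ℕ → ℝ} (hf : Small f) (hg : Small g) : Small (fun n => f n - g n) := by
  have := hf.add hg.neg
  simpa [sub_eq_add_neg] using this

theorem Small.mul_bdd {f g : ℕ → ℝ} (hf : Small f) {M : ℝ} (hg : ∀ n, |g n| ≤ M) :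
    Small (fun n => f n * g n) := by
  obtain ⟨B, h, hf⟩ := hf
  refine Small.of_le (C := B * M) (K := B) fun n hn => ?_
  rw [abs_mul]
  have hM : 0 ≤ M := (abs_nonneg _).trans (hg n)
  calc |f n| * |g n| ≤ B * phi B n * M :=
        mul_le_mul (hf n hn) (hg n) (abs_nonneg _) (mul_nonneg h.le (phi_nonneg _ _))
    _ = _ := by ring

theorem Small.const_mul {f : ℕ → ℝ} (hf : Small f) (k : ℝ) : Small (fun n => k * f n) := by
  have := hf.mul_bdd (g := fun _ => k) (M := |k|) (fun _ => le_rfl)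
  simpa [mul_comm] using this

theorem Small.congr {f g : ℕ → ℝ} (hf : Small f) (h : ∀ n, f n = g n) : Small g := by
  obtain ⟨B, hB, hf⟩ := hf
  exact ⟨B, hB, fun n hn => by rw [← h]; exact hf n hn⟩

theorem Small.shift_one {f : ℕ → ℝ} (hf : Small f) : Small (fun n => f (n + 1)) := by
  obtain ⟨B, hB, hf⟩ := hf
  refine Small.of_le (C := B * Real.exp (8 * B)) (K := 2 * B) fun n hn => ?_
  have h1 := hf (n + 1) (by omega)
  refine h1.trans ?_
  rw [phi_eq, phi_eq]
  have h2 : 1 / H982.CL.cr (n + 1) ≤ 1 / H982.CL.cr n := by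
    rw [← H982.CL.rpow_neg_third, ← H982.CL.rpow_neg_third]
    have hn0 : (0 : ℝ) < n := by exact_mod_cast (by omega : 0 < n)
    apply Real.rpow_le_rpow_of_nonpos hn0
    · push_cast; linarith
    · norm_num
  have h3 := H982.CL.EE_scale hB.le (m := n + 1) (n := n) (by omega) hn (by omega)
  have hcr : 0 ≤ 1 / H982.CL.cr n := by rw [← H982.CL.rpow_neg_third]; positivity
  have h4 : 1 / H982.CL.cr (n + 1) * H982.CL.EE B (n + 1) ≤
      1 / H982.CL.cr n * (Real.exp (8 * B) * H982.CL.EE (2 * B) n) :=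
    mul_le_mul h2 h3 (H982.CL.EE_pos _ _).le hcr
  calc B * (1 / H982.CL.cr (n + 1) * H982.CL.EE B (n + 1))
      ≤ B * (1 / H982.CL.cr n * (Real.exp (8 * B) * H982.CL.EE (2 * B) n)) :=
        mul_le_mul_of_nonneg_left h4 hB.le
    _ = _ := by ring

theorem Small.shift {f : ℕ → ℝ} (hf : Small f) (j : ℕ) : Small (fun n => f (n + j)) := by
  induction j with
  | zero => simpa using hf
  | succ j ih =>
    refine ih.shift_one.congr fun n => ?_
    rw [show n + 1 + j = n + (j + 1) by ring]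

theorem Small.sum {ι : Type*} (s : Finset ι) {f : ι → ℕ → ℝ} (hf : ∀ i ∈ s, Small (f i)) :
    Small (fun n => ∑ i ∈ s, f i n) := by
  classical
  induction s using Finset.induction_on with
  | empty => exact Small.of_le (C := 0) (K := 0) fun n _ => by simp
  | insert i s hi ih =>
    have h1 := (hf i (Finset.mem_insert_self _ _)).add
      (ih fun j hj => hf j (Finset.mem_insert_of_mem hj))
    exact h1.congr fun n => by rw [Finset.sum_insert hi]

/-! ### the walks -/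

theorem c_eq (n : ℕ) : c n = Q294.Close.c (H982.CL.Ed 3) n := by
  rw [H982.CL.c_Ed, ← Nat.card_coe_set_eq]
  rfl

theorem closing_eq (n : ℕ) : closing n = Q294.Close.κ (H982.CL.Ed 3) n := by
  rw [H982.CL.κ_Ed, ← Nat.card_coe_set_eq]
  rfl

theorem c_pos (n : ℕ) : (0 : ℝ) < c n := by
  rw [c_eq]
  exact H982.CL.c3_pos n

theorem c_succ_le (n : ℕ) : (c (n + 1) : ℝ) ≤ c 1 * c n := by
  have h := Pool.Agent.H46R2.K3.P.mu_c_add 1 n
  rw [add_comm 1 n] at h
  rw [c_eq, c_eq, c_eq, H982.CL.c3_eq, H982.CL.c3_eq, H982.CL.c3_eq]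
  exact_mod_cast h

theorem c_add_le (n a : ℕ) : (c (n + a) : ℝ) ≤ c a * c n := by
  have h := Pool.Agent.H46R2.K3.P.mu_c_add a n
  rw [add_comm a n] at h
  rw [c_eq, c_eq, c_eq, H982.CL.c3_eq, H982.CL.c3_eq, H982.CL.c3_eq]
  exact_mod_cast h

theorem bdd (a n : ℕ) : |(c (n + a) : ℝ) / c n| ≤ c a := by
  rw [abs_of_nonneg (div_nonneg (c_pos _).le (c_pos _).le), div_le_iff₀ (c_pos n)]
  exact c_add_le n a

theorem log_rat : Small (fun n => Real.log ((c (n + 2) : ℝ) / H982.CL.mu3 ^ (n + 2)) -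
    Real.log ((c n : ℝ) / H982.CL.mu3 ^ n)) := by
  obtain ⟨C, K, hC, hK, h⟩ := H982.CL.rat_c
  refine Small.of_le (C := C) (K := K) fun n hn => ?_
  have h1 := h n hn n hn (by omega) (by omega)
  rw [← c_eq, ← c_eq, ← phi_eq] at h1
  exact h1

theorem mu_pos : 0 < H982.CL.mu3 := by linarith [H982.CL.mu3_one]

theorem rat_two : Small (fun n => (c (n + 2) : ℝ) / c n - H982.CL.mu3 ^ 2) := by
  obtain ⟨B, hB, h⟩ := log_rat
  have hmu := mu_pos
  have hc2 : (0 : ℝ) < c 2 := c_pos 2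
  obtain ⟨M, hM⟩ : ∃ M : ℝ, M = 1 + 2 * H982.CL.mu3 ^ 2 + c 2 := ⟨_, rfl⟩
  have hM1 : 1 ≤ M := by rw [hM]; nlinarith [sq_nonneg H982.CL.mu3]
  refine Small.of_le (C := M * B) (K := B) fun n hn => ?_
  have h1 := h n hn
  dsimp only at h1
  obtain ⟨x, hx⟩ : ∃ x : ℝ, x = Real.log ((c (n + 2) : ℝ) / H982.CL.mu3 ^ (n + 2)) -
      Real.log ((c n : ℝ) / H982.CL.mu3 ^ n) := ⟨_, rfl⟩
  rw [← hx] at h1
  have hp0 := c_pos n
  have hp2 := c_pos (n + 2)
  have e : (c (n + 2) : ℝ) / c n = H982.CL.mu3 ^ 2 * Real.exp x := by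
    rw [hx, ← Real.log_div (by positivity) (by positivity), Real.exp_log (by positivity)]
    field_simp
    ring
  have hb : (c (n + 2) : ℝ) / c n ≤ c 2 := by
    rw [div_le_iff₀ hp0]
    exact c_add_le n 2
  have key : |(c (n + 2) : ℝ) / c n - H982.CL.mu3 ^ 2| ≤ M * |x| := by
    rcases le_or_gt |x| 1 with hx1 | hx1
    · have h3 := Real.abs_exp_sub_one_le hx1
      rw [e, show H982.CL.mu3 ^ 2 * Real.exp x - H982.CL.mu3 ^ 2 =
        H982.CL.mu3 ^ 2 * (Real.exp x - 1) by ring, abs_mul, abs_of_nonneg (sq_nonneg _)]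
      calc H982.CL.mu3 ^ 2 * |Real.exp x - 1| ≤ H982.CL.mu3 ^ 2 * (2 * |x|) :=
            mul_le_mul_of_nonneg_left h3 (sq_nonneg _)
        _ = (2 * H982.CL.mu3 ^ 2) * |x| := by ring
        _ ≤ M * |x| := by
            apply mul_le_mul_of_nonneg_right _ (abs_nonneg _)
            rw [hM]
            linarith
    · have h3 : 0 < (c (n + 2) : ℝ) / c n := div_pos hp2 hp0
      have h4 : |(c (n + 2) : ℝ) / c n - H982.CL.mu3 ^ 2| ≤ M := by
        rw [abs_le, hM]
        constructor <;> nlinarith [sq_nonneg H982.CL.mu3]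
      exact h4.trans (le_mul_of_one_le_right (by linarith) hx1.le)
  calc |(c (n + 2) : ℝ) / c n - H982.CL.mu3 ^ 2| ≤ M * |x| := key
    _ ≤ M * (B * phi B n) := mul_le_mul_of_nonneg_left h1 (by linarith)
    _ = _ := by ring

theorem rat_even (k : ℕ) : Small (fun n => (c (n + 2 * k) : ℝ) / c n - H982.CL.mu3 ^ (2 * k)) := by
  induction k with
  | zero =>
    refine Small.of_le (C := 0) (K := 0) fun n _ => ?_
    have := c_pos n
    simp [div_self this.ne']
  | succ k ih =>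
    have h1 := (ih.shift 2).mul_bdd (g := fun n => (c (n + 2) : ℝ) / c n) (bdd 2)
    have h2 := rat_two.const_mul (H982.CL.mu3 ^ (2 * k))
    refine (h1.add h2).congr fun n => ?_
    have p0 := c_pos n
    have p2 := c_pos (n + 2)
    rw [show n + 2 * (k + 1) = n + 2 + 2 * k by ring, show 2 * (k + 1) = 2 * k + 2 by ring, pow_add]
    field_simp
    ring

theorem small_close_one : Small (fun n => (closing (n + 1) : ℝ) / c n) := by
  obtain ⟨K, hK, h⟩ := H982.CL.point3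
  have h0 : Small (fun n => (closing n : ℝ) / c n) := by
    refine Small.of_le (C := K) (K := K) fun n hn => ?_
    rw [abs_of_nonneg (div_nonneg (Nat.cast_nonneg _) (Nat.cast_nonneg _)),
      div_le_iff₀ (c_pos n), phi_eq, c_eq, closing_eq]
    exact h n hn
  refine (h0.shift_one.mul_bdd (g := fun n => (c (n + 1) : ℝ) / c n) (bdd 1)).congr fun n => ?_
  have p0 := c_pos n
  have p1 := c_pos (n + 1)
  field_simp

theorem small_close (i : ℕ) : Small (fun n => (closing (n + 1 + i) : ℝ) / c n) := by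
  refine ((small_close_one.shift i).mul_bdd (g := fun n => (c (n + i) : ℝ) / c n) (bdd i)).congr
    fun n => ?_
  have p0 := c_pos n
  have p1 := c_pos (n + i)
  rw [show n + i + 1 = n + 1 + i by ring]
  field_simp

theorem E_XE (a n : ℕ) : E n (fun ω => (XE a ω : ℝ)) = c (n + a) / c n := by
  rw [E_eq, sum_XE]

theorem E_XS (b n : ℕ) : E n (fun ω => (XS b ω : ℝ)) = c (n + b) / c n := by
  rw [E_eq, sum_XS]

/-- the mean of the product -/
theorem E_XX (a b : ℕ) : Small (fun n => E n (fun ω => (XE a ω : ℝ) * XS b ω) -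
    (c (n + a + b) : ℝ) / c n) := by
  have h1 := (Small.sum (Finset.range (a + b)) (f := fun i n => (closing (n + 1 + i) : ℝ) / c n)
    (fun i _ => small_close i)).const_mul (a * (Q : ℝ) ^ (a + b))
  obtain ⟨B, hB, h⟩ := h1
  refine ⟨B, hB, fun n hn => ?_⟩
  refine le_trans ?_ (h n hn)
  have p0 := c_pos n
  dsimp only
  rw [E_eq, ← sub_div, abs_div, abs_of_pos p0, div_le_iff₀ p0]
  refine (N_bound a b n).trans ?_
  have e : a * (Q : ℝ) ^ (a + b) * ∑ i ∈ Finset.range (a + b), (closing (n + 1 + i) : ℝ) =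
      (a * (Q : ℝ) ^ (a + b) * ∑ i ∈ Finset.range (a + b), (closing (n + 1 + i) : ℝ) / c n) *
        c n := by
    rw [← Finset.sum_div]
    field_simp
  rw [e]
  exact mul_le_mul_of_nonneg_right (le_abs_self _) p0.le

/-- the covariance of the number of `a`-step extensions at the end point and the number of `b`-step
extensions at the starting point of the uniform `n`-step self-avoiding walk -/
noncomputable def Cv (a b n : ℕ) : ℝ :=
  E n (fun ω => (XE a ω : ℝ) * XS b ω) - E n (fun ω => (XE a ω : ℝ)) * E n (fun ω => (XS b ω : ℝ))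

theorem mean_even (a b : ℕ) (h : Even (a + b)) :
    Small (fun n => E n (fun ω => (XE a ω : ℝ) * XS b ω) - H982.CL.mu3 ^ (a + b)) := by
  obtain ⟨k, hk⟩ := h
  refine ((E_XX a b).add (rat_even k)).congr fun n => ?_
  rw [show n + 2 * k = n + a + b by omega, show 2 * k = a + b by omega]
  ring

theorem Cv_even_left (k b : ℕ) : Small (Cv (2 * k) b) := by
  have h1 := E_XX (2 * k) b
  have h2 := (((rat_even k).shift b).sub (rat_even k)).mul_bdd
    (g := fun n => (c (n + b) : ℝ) / c n) (bdd b)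
  refine (h1.add h2).congr fun n => ?_
  unfold Cv
  rw [E_XE, E_XS, show n + b + 2 * k = n + 2 * k + b by ring]
  have p0 := c_pos n
  have pb := c_pos (n + b)
  field_simp
  ring

theorem Cv_even_right (a k : ℕ) : Small (Cv a (2 * k)) := by
  have h1 := E_XX a (2 * k)
  have h2 := (((rat_even k).shift a).sub (rat_even k)).mul_bdd
    (g := fun n => (c (n + a) : ℝ) / c n) (bdd a)
  refine (h1.add h2).congr fun n => ?_
  unfold Cv
  rw [E_XE, E_XS]
  have p0 := c_pos n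
  have pb := c_pos (n + a)
  field_simp
  ring

theorem rat_odd (k : ℕ) : Small (fun n => (c (n + (2 * k + 1)) : ℝ) / c n -
    H982.CL.mu3 ^ (2 * k) * (c (n + 1) / c n)) := by
  refine (((rat_even k).shift 1).mul_bdd (g := fun n => (c (n + 1) : ℝ) / c n) (bdd 1)).congr
    fun n => ?_
  rw [show n + 1 + 2 * k = n + (2 * k + 1) by ring]
  have p0 := c_pos n
  have pb := c_pos (n + 1)
  field_simp

theorem Cv_odd (k l : ℕ) : Small (fun n => Cv (2 * k + 1) (2 * l + 1) n -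
    H982.CL.mu3 ^ (2 * k + 1 + (2 * l + 1)) *
      (1 - ((c (n + 1) : ℝ) / (H982.CL.mu3 * c n)) ^ 2)) := by
  have h1 := mean_even (2 * k + 1) (2 * l + 1) ⟨k + l + 1, by ring⟩
  have h2 := (rat_odd k).mul_bdd (g := fun n => (c (n + (2 * l + 1)) : ℝ) / c n) (bdd _)
  have h3 := ((rat_odd l).mul_bdd (g := fun n => (c (n + 1) : ℝ) / c n) (bdd 1)).const_mul
    (H982.CL.mu3 ^ (2 * k))
  refine ((h1.sub h2).sub h3).congr fun n => ?_
  unfold Cv
  rw [E_XE, E_XS]
  have p0 := c_pos n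
  have hmu := mu_pos
  have e : (H982.CL.mu3 ^ (2 * k + 1 + (2 * l + 1)) *
      (1 - ((c (n + 1) : ℝ) / (H982.CL.mu3 * c n)) ^ 2)) =
      H982.CL.mu3 ^ (2 * k + 1 + (2 * l + 1)) -
        H982.CL.mu3 ^ (2 * k) * H982.CL.mu3 ^ (2 * l) * ((c (n + 1) : ℝ) / c n) ^ 2 := by
    have e2 : H982.CL.mu3 ^ (2 * k + 1 + (2 * l + 1)) =
      H982.CL.mu3 ^ (2 * k) * H982.CL.mu3 ^ (2 * l) * H982.CL.mu3 ^ 2 := by ring
    rw [e2]
    field_simp
  rw [e]
  ring

end H131.EU
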